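import Pool.Agent.TH311.LM.L2

/-!
# A uniform convergence action is minimal
-/

set_option autoImplicit false

open Filter Topology Set
open Pool.Agent.TH289.C

namespace Pool.Agent.TH311.LM

variable {G : Type} [Group G] {X : Type} [MetricSpace X] [CompactSpace X]

theorem apow_fix {α : G →* (X ≃ₜ X)} {h : G} {p : X} (hf : α h p = p) (k : ℕ) :
    α (h ^ k) p = p := by
  induction k with
  | zero => rw [pow_zero, aone]
  | succ k ih => rw [pow_succ, amul, hf, ih]

theorem Lox.tendsto {α : G →* (X ≃ₜ X)} {h : G} {V : Set X} {p q : X} (L : Lox α h V p q) {x : X}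
    (hx : x ≠ q) : Tendsto (fun k : ℕ => α (h ^ k) x) atTop (𝓝 p) := by
  intro N hN
  obtain ⟨k₀, hk₀⟩ := L.ent x hx
  obtain ⟨m, hm⟩ := L.contr N hN
  rw [Filter.mem_map]
  filter_upwards [eventually_ge_atTop (m + k₀)] with k hk
  have : α (h ^ k) x = α (h ^ (k - k₀)) (α (h ^ k₀) x) := by
    rw [← amul, ← pow_add]
    congr 3
    omega
  change α (h ^ k) x ∈ N
  rw [this]
  exact hm _ (by omega) _ hk₀

theorem Lox.pow_maps {α : G →* (X ≃ₜ X)} {h : G} {V : Set X} {p q : X} (L : Lox α h V p q)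
    (k : ℕ) : ∀ x ∈ V, α (h ^ k) x ∈ V := by
  induction k with
  | zero => intro x hx; rwa [pow_zero, aone]
  | succ k ih => intro x hx; rw [pow_succ, amul]; exact ih _ (L.maps x hx)

theorem Lox.back {α : G →* (X ≃ₜ X)} {h : G} {V : Set X} {p q : X} (L : Lox α h V p q) {x : X}
    (hx : x ≠ p) : Tendsto (fun k : ℕ => α (h ^ k)⁻¹ x) atTop (𝓝 q) := by
  intro W hW
  obtain ⟨W', hW', hWo, hqW⟩ := mem_nhds_iff.1 hW
  have hcov : W'ᶜ ⊆ ⋃ k : ℕ, {y | α (h ^ k) y ∈ V} := by
    intro y hy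
    have hyq : y ≠ q := fun h0 => hy (h0 ▸ hqW)
    obtain ⟨k, hk⟩ := L.ent y hyq
    exact mem_iUnion.2 ⟨k, hk⟩
  obtain ⟨k₀, hk₀⟩ := hWo.isClosed_compl.isCompact.elim_directed_cover
    (fun k : ℕ => {y | α (h ^ k) y ∈ V}) (fun k => L.isOpen.preimage (α (h ^ k)).continuous) hcov
    (by
      apply Monotone.directed_le
      intro k l hkl y hy
      have : α (h ^ l) y = α (h ^ (l - k)) (α (h ^ k) y) := by
        rw [← amul, ← pow_add]
        congr 3
        omega
      change α (h ^ l) y ∈ V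
      rw [this]
      exact L.pow_maps _ _ hy)
  obtain ⟨m, hm⟩ := L.contr {x}ᶜ (isOpen_compl_singleton.mem_nhds (by simpa using hx.symm))
  rw [Filter.mem_map]
  filter_upwards [eventually_ge_atTop (m + k₀)] with k hk
  apply hW'
  change α (h ^ k)⁻¹ x ∈ W'
  by_contra hcon
  have h1 := hk₀ hcon
  have h2 := hm (k - k₀) (by omega) _ h1
  rw [← amul, ← pow_add, show k - k₀ + k₀ = k by omega, ainv'] at h2
  exact h2 rfl

theorem Lox.conj {α : G →* (X ≃ₜ X)} {h : G} {V : Set X} {p q : X} (L : Lox α h V p q) (g : G) :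
    Lox α (g * h * g⁻¹) {x | α g⁻¹ x ∈ V} (α g p) (α g q) where
  isOpen := L.isOpen.preimage (α g⁻¹).continuous
  p_mem := by
    change α g⁻¹ (α g p) ∈ V
    rw [ainv]; exact L.p_mem
  q_notMem := by
    change ¬ α g⁻¹ (α g q) ∈ V
    rw [ainv]; exact L.q_notMem
  fix_p := by rw [amul, amul, ainv, L.fix_p]
  fix_q := by rw [amul, amul, ainv, L.fix_q]
  maps := by
    intro x hx
    change α g⁻¹ _ ∈ V
    rw [amul, amul, ainv]
    exact L.maps _ hx
  ent := by
    intro x hx
    have : α g⁻¹ x ≠ q := by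
      intro h0
      apply hx
      rw [← h0, ainv']
    obtain ⟨k, hk⟩ := L.ent _ this
    refine ⟨k, ?_⟩
    change α g⁻¹ _ ∈ V
    rw [conj_pow, amul, amul, ainv]
    exact hk
  contr := by
    intro N hN
    have : {x | α g x ∈ N} ∈ 𝓝 p := (α g).continuous.continuousAt hN
    obtain ⟨m, hm⟩ := L.contr _ this
    refine ⟨m, fun k hk x hx => ?_⟩
    rw [conj_pow, amul, amul]
    exact hm k hk _ hx

omit [CompactSpace X] in
theorem Lox.eq_of_fix {α : G →* (X ≃ₜ X)} {h : G} {V : Set X} {p q b : X} (L : Lox α h V p q)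
    (hb : ∀ g, α g b = b) (hV : b ∉ V) : b = q := by
  by_contra hne
  obtain ⟨k, hk⟩ := L.ent b hne
  rw [hb] at hk
  exact hV hk

theorem no_fix (hp : Perf X) {α : G →* (X ≃ₜ X)} (hα : IsConvergenceAction α)
    (hco : CocompactOnTriples α) (b : X) (hb : ∀ g, α g b = b) : False := by
  obtain ⟨y₀, hy₀, -⟩ := hp b 1 one_pos
  obtain ⟨h, V, p, q, hVU, L⟩ := exists_lox hp hα hco (isOpen_compl_singleton (x := b)) ⟨y₀, hy₀⟩
  have hbV : b ∉ V := fun h0 => hVU h0 rfl
  obtain rfl := L.eq_of_fix hb hbV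
  have hpb : p ≠ b := fun h0 => hbV (h0 ▸ L.p_mem)
  obtain ⟨g, hg⟩ : ∃ g, α g p ≠ p := by
    by_contra hcon
    push Not at hcon
    obtain ⟨y₁, h1, h2, -⟩ := near_off hp p b one_pos
    obtain ⟨h', V', p', q', hVU', L'⟩ := exists_lox hp hα hco
      ((isOpen_compl_singleton (x := b)).inter (isOpen_compl_singleton (x := p))) ⟨y₁, h2, h1⟩
    have e1 := L'.eq_of_fix hb (fun h0 => (hVU' h0).1 rfl)
    have e2 := L'.eq_of_fix hcon (fun h0 => (hVU' h0).2 rfl)
    exact hpb (e2.trans e1.symm)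
  set f := g * h * g⁻¹ with hf
  have Lf := L.conj g
  rw [← hf, hb g] at Lf
  set p' := α g p with hp'
  set V' := {x | α g⁻¹ x ∈ V} with hV'
  have hp'b : p' ≠ b := by
    intro h0
    have := congrArg (α g⁻¹) h0
    rw [hp', ainv, hb] at this
    exact hpb this
  obtain ⟨x, hxp, hxb, -⟩ := near_off hp p b one_pos
  set D := dist p' b with hD
  have hD0 : 0 < D := dist_pos.2 hp'b
  set N := Metric.ball p' (D / 2) with hN
  have hNb : ∀ z ∈ N, D / 2 ≤ dist z b := by
    intro z hz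
    have h1 : dist z p' < D / 2 := hz
    have h2 := dist_triangle p' z b
    rw [dist_comm p' z] at h2
    linarith
  -- points entering `N` for the first time stay away from `p'`
  obtain ⟨δ, hδ, hδN⟩ : ∃ δ : ℝ, 0 < δ ∧ ∀ z, dist z p' < δ → α f⁻¹ z ∈ N := by
    have h1 : Tendsto (α f⁻¹) (𝓝 p') (𝓝 p') := by
      have := (α f⁻¹).continuous.tendsto p'
      rwa [show α f⁻¹ p' = p' by
        have := ainv α f p'
        rwa [Lf.fix_p] at this] at this
    exact Metric.mem_nhds_iff.1 (h1 (Metric.ball_mem_nhds p' (by positivity)))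
  set y : ℕ → X := fun j => α (h ^ j)⁻¹ x with hy
  have hyb : ∀ j, y j ≠ b := by
    intro j h0
    have := congrArg (α (h ^ j)) h0
    rw [hy] at this
    simp only at this
    rw [ainv', hb] at this
    exact hxb this
  have hent : ∀ j, ∃ k : ℕ, α (f ^ k) (y j) ∈ N := by
    intro j
    exact ((Lf.tendsto (hyb j)).eventually (Metric.ball_mem_nhds p' (by positivity))).exists
  classical
  choose k hk hkmin using fun j => (⟨Nat.find (hent j), Nat.find_spec (hent j),
    fun i hi => Nat.find_min (hent j) hi⟩ : ∃ k : ℕ, α (f ^ k) (y j) ∈ N ∧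
      ∀ i, i < k → ¬ α (f ^ i) (y j) ∈ N)
  have hyt : Tendsto y atTop (𝓝 b) := L.back hxp
  have hfar : ∀ i : ℕ, ∀ᶠ j in atTop, α (f ^ i) (y j) ∉ N := by
    intro i
    have h1 : Tendsto (fun j => α (f ^ i) (y j)) atTop (𝓝 b) := by
      have := ((α (f ^ i)).continuous.tendsto b).comp hyt
      rwa [hb] at this
    filter_upwards [h1.eventually (Metric.ball_mem_nhds b (half_pos hD0))] with j hj hN'
    have h2 := hNb _ hN'
    have h3 : dist (α (f ^ i) (y j)) b < D / 2 := hj
    linarith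
  have hkt : Tendsto k atTop atTop := by
    rw [tendsto_atTop]
    intro M
    have h1 : ∀ᶠ j in atTop, ∀ i ∈ Finset.range M, α (f ^ i) (y j) ∉ N :=
      (Filter.eventually_all_finset _).2 fun i _ => hfar i
    filter_upwards [h1] with j hj
    by_contra hlt
    exact hj (k j) (Finset.mem_range.2 (not_le.1 hlt)) (hk j)
  have hkp : Tendsto (fun j => α (f ^ (k j)) p) atTop (𝓝 p') := (Lf.tendsto hpb).comp hkt
  set t : Fin 3 → X := ![b, p, x] with ht
  have hsep : 0 < sep t := by
    refine lt_sep fun i j hij => ?_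
    rw [dist_pos]
    fin_cases i <;> fin_cases j <;> simp [ht] at hij ⊢
    · exact hpb.symm
    · exact hxb.symm
    · exact hpb
    · exact hxp.symm
    · exact hxb
    · exact hxp
  have hfin := finite_meet hα hsep (d := min (D / 2) (δ / 2)) (by positivity)
  have hev : ∀ᶠ j in atTop, f ^ (k j) * (h ^ j)⁻¹ ∈
      {g : G | ∃ t' : Fin 3 → X, sep t ≤ sep t' ∧ min (D / 2) (δ / 2) ≤ sep (act α g t')} := by
    filter_upwards [hkp.eventually (Metric.ball_mem_nhds p' (show 0 < min (D / 2) (δ / 2) by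
      positivity)), hkt.eventually (eventually_ge_atTop 1)] with j hj hj1
    refine ⟨t, le_rfl, ?_⟩
    have hj' : dist (α (f ^ (k j)) p) p' < min (D / 2) (δ / 2) := hj
    have ep : α (f ^ (k j) * (h ^ j)⁻¹) p = α (f ^ (k j)) p := by
      rw [amul]
      congr 1
      have := ainv α (h ^ j) p
      rwa [apow_fix L.fix_p] at this
    have ex : α (f ^ (k j) * (h ^ j)⁻¹) x = α (f ^ (k j)) (y j) := by rw [amul]
    have d1 : D / 2 ≤ dist (α (f ^ (k j)) (y j)) b := hNb _ (hk j)
    have d2 : δ ≤ dist (α (f ^ (k j)) (y j)) p' := by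
      by_contra hlt
      have h1 := hδN _ (not_le.1 hlt)
      rw [← amul] at h1
      have h2 : f⁻¹ * f ^ (k j) = f ^ (k j - 1) := by
        obtain ⟨l, hl⟩ : ∃ l, k j = l + 1 := ⟨k j - 1, by omega⟩
        rw [hl, pow_succ', Nat.add_sub_cancel, inv_mul_cancel_left]
      rw [h2] at h1
      exact hkmin j _ (by omega) h1
    have d3 : D / 2 ≤ dist (α (f ^ (k j)) p) b := by
      have h2 := dist_triangle p' (α (f ^ (k j)) p) b
      rw [dist_comm p' (α (f ^ (k j)) p)] at h2
      have := min_le_left (D / 2) (δ / 2)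
      linarith
    have d4 : δ / 2 ≤ dist (α (f ^ (k j)) p) (α (f ^ (k j)) (y j)) := by
      have h2 := dist_triangle (α (f ^ (k j)) (y j)) (α (f ^ (k j)) p) p'
      rw [dist_comm (α (f ^ (k j)) (y j)) (α (f ^ (k j)) p)] at h2
      have := min_le_right (D / 2) (δ / 2)
      linarith
    have m1 := min_le_left (D / 2) (δ / 2)
    have m2 := min_le_right (D / 2) (δ / 2)
    refine le_sep fun i l hil => ?_
    simp only [act]
    fin_cases i <;> fin_cases l <;> simp only [ht, Fin.zero_eta, Fin.mk_one, Fin.reduceFinMk,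
      Matrix.cons_val_zero, Matrix.cons_val_one, Matrix.cons_val, hb, ep, ex] at hil ⊢
    · exact absurd rfl hil
    · rw [dist_comm]; linarith
    · rw [dist_comm]; linarith
    · linarith
    · exact absurd rfl hil
    · linarith
    · linarith
    · rw [dist_comm]; linarith
    · exact absurd rfl hil
  obtain ⟨J, hJ⟩ := eventually_atTop.1 hev
  obtain ⟨i, hi, j, hj, hij, he⟩ := (Set.Ici_infinite J).exists_lt_map_eq_of_mapsTo
    (f := fun j => f ^ (k j) * (h ^ j)⁻¹) (fun j hj => hJ j hj) hfin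
  change f ^ (k i) * (h ^ i)⁻¹ = f ^ (k j) * (h ^ j)⁻¹ at he
  have h1 : h ^ j = h ^ i * ((f ^ (k i))⁻¹ * f ^ (k j)) := by
    have : f ^ (k j) = f ^ (k i) * (h ^ i)⁻¹ * h ^ j := by
      rw [he, inv_mul_cancel_right]
    rw [this]
    group
  have h2 : α (h ^ j) p' = α (h ^ i) p' := by
    rw [h1, amul, amul, apow_fix Lf.fix_p]
    congr 1
    have := ainv α (f ^ (k i)) p'
    rwa [apow_fix Lf.fix_p] at this
  have h3 : α (h ^ (j - i)) p' = p' := by
    have e : h ^ j = h ^ i * h ^ (j - i) := by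
      rw [← pow_add]
      congr 1
      omega
    rw [e, amul] at h2
    exact (α (h ^ i)).injective h2
  have h4 : Tendsto (fun n : ℕ => α (h ^ ((j - i) * n)) p') atTop (𝓝 p) := by
    have hm : Tendsto (fun n : ℕ => (j - i) * n) atTop atTop :=
      tendsto_id.const_mul_atTop' (by omega)
    exact (L.tendsto hp'b).comp hm
  have h5 : ∀ n : ℕ, α (h ^ ((j - i) * n)) p' = p' := by
    intro n
    rw [pow_mul]
    exact apow_fix h3 n
  simp only [h5] at h4
  exact hg (tendsto_nhds_unique tendsto_const_nhds h4)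

/-- The action is minimal. -/
theorem minimal (hp : Perf X) {α : G →* (X ≃ₜ X)} (hα : IsConvergenceAction α)
    (hco : CocompactOnTriples α) {U : Set X} (hU : IsOpen U) (hne : U.Nonempty) (x : X) :
    ∃ g, α g x ∈ U := by
  obtain ⟨ξ, hξ⟩ := hne
  obtain ⟨g, b, hg⟩ := conical hp hα hco ξ
  have key : ∀ y, y ≠ b → ∃ g, α g y ∈ U := by
    intro y hy
    obtain ⟨n, hn⟩ := ((att_tendsto hg hy).eventually (hU.mem_nhds hξ)).exists
    exact ⟨g n, hn⟩
  by_cases hx : x = b
  · obtain ⟨c, hc⟩ : ∃ c, α c b ≠ b := by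
      by_contra hcon
      push Not at hcon
      exact no_fix hp hα hco b hcon
    obtain ⟨g', hg'⟩ := key _ hc
    refine ⟨g' * c, ?_⟩
    rw [hx, amul]
    exact hg'
  · exact key x hx

end Pool.Agent.TH311.LM
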