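import Pool.Agent.TH311.LM.L5
import Pool.Agent.TH311.LM.L6

/-!
# Finitely many elements suffice, and the assembly
-/

set_option autoImplicit false

open Filter Topology Set
open Pool.Agent.TH289.C

namespace Pool.Agent.TH311.LM

variable {E : Type} [NormedAddCommGroup E] [InnerProductSpace ℝ E]

/-- If finitely many elements preserve a Moebius structure on `U`, then all elements do. -/
theorem finite_test [FiniteDimensional ℝ E] (hE : 2 ≤ Module.finrank ℝ E) {G : Type} [Group G]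
    {α : G →* (Sph E ≃ₜ Sph E)} (hα : IsConvergenceAction α) (hco : CocompactOnTriples α)
    (hfg : Group.FG G) {U : Set (Sph E)} (hU : IsOpen U) (hne : U.Nonempty) :
    ∃ F : Finset G, ∀ (ι : Type) (W : ι → Set (Sph E)) (φ : ι → Sph E → Sph E), (⋃ a, W a) = U →
      (∀ g ∈ F, ∀ a b, ∀ x ∈ W a, α g x ∈ W b →
        ∃ T : IG E, ∀ᶠ y in 𝓝 x, φ b (α g y) = mo T (φ a y)) →
      ∀ g a b, ∀ x ∈ W a, α g x ∈ W b →
        ∃ T : IG E, ∀ᶠ y in 𝓝 x, φ b (α g y) = mo T (φ a y) := by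
  classical
  have : ProperSpace E := FiniteDimensional.proper ℝ E
  have hcS : CompactSpace (Sph E) := isCompact_iff_compactSpace.1 (isCompact_sphere (0 : E) 1)
  have hperf : Perf (Sph E) := perf_sph hE
  obtain ⟨I, hI⟩ := isCompact_univ.elim_finite_subcover (fun g : G => {x | α g x ∈ U})
    (fun g => hU.preimage (α g).continuous) (fun x _ => by
      obtain ⟨g, hg⟩ := minimal hperf hα hco hU hne x
      exact mem_iUnion.2 ⟨g, hg⟩)
  obtain ⟨S, hS⟩ := hfg.out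
  set I' : Finset G := insert 1 I with hI'
  set S' : Finset G := insert 1 (S ∪ S.image (fun s => s⁻¹)) with hS'
  refine ⟨(I' ×ˢ S' ×ˢ I').image (fun t => t.1 * t.2.1 * t.2.2⁻¹), fun ι W φ hW hφ => ?_⟩
  have hF : ∀ i ∈ I', ∀ s ∈ S', ∀ l ∈ I', ∀ a b, ∀ x ∈ W a, α (i * s * l⁻¹) x ∈ W b →
      ∃ T : IG E, ∀ᶠ y in 𝓝 x, φ b (α (i * s * l⁻¹) y) = mo T (φ a y) := by
    intro i hi s hs l hl
    refine hφ _ (Finset.mem_image.2 ⟨(i, s, l), ?_, rfl⟩)
    simp only [Finset.mem_product]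
    exact ⟨hi, hs, hl⟩
  have h1S : (1 : G) ∈ S' := Finset.mem_insert_self _ _
  have h1I : (1 : G) ∈ I' := Finset.mem_insert_self _ _
  have step : ∀ s ∈ S', ∀ g : G,
      (∀ i ∈ I', ∀ a b, ∀ x ∈ W a, α (i * g) x ∈ W b →
        ∃ T : IG E, ∀ᶠ y in 𝓝 x, φ b (α (i * g) y) = mo T (φ a y)) →
      ∀ i ∈ I', ∀ a b, ∀ x ∈ W a, α (i * (s * g)) x ∈ W b →
        ∃ T : IG E, ∀ᶠ y in 𝓝 x, φ b (α (i * (s * g)) y) = mo T (φ a y) := by
    intro s hs g hg i hi a b x hx hx'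
    obtain ⟨l, hl, hlx⟩ : ∃ l ∈ I', α l (α g x) ∈ U := by
      obtain ⟨l, hl⟩ := mem_iUnion.1 (hI (mem_univ (α g x)))
      obtain ⟨hl1, hl2⟩ := mem_iUnion.1 hl
      exact ⟨l, Finset.mem_insert_of_mem hl1, hl2⟩
    rw [← amul, ← hW] at hlx
    obtain ⟨c, hlx⟩ := mem_iUnion.1 hlx
    obtain ⟨T, hT⟩ := hg l hl a c x hx hlx
    have e : i * (s * g) = i * s * l⁻¹ * (l * g) := by group
    rw [e, amul] at hx'
    obtain ⟨T', hT'⟩ := hF i hi s hs l hl c b _ hlx hx'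
    refine ⟨T' * T, ?_⟩
    have hcont : Tendsto (α (l * g)) (𝓝 x) (𝓝 (α (l * g) x)) := (α (l * g)).continuous.tendsto x
    filter_upwards [hT, hcont.eventually hT'] with y h1 h2
    rw [e, amul, h2, h1, mo_mul]
  have base : ∀ i ∈ I', ∀ a b, ∀ x ∈ W a, α (i * 1) x ∈ W b →
      ∃ T : IG E, ∀ᶠ y in 𝓝 x, φ b (α (i * 1) y) = mo T (φ a y) := by
    intro i hi a b x hx hx'
    have h := hF i hi 1 h1S 1 h1I
    rw [inv_one, mul_one] at h
    exact h a b x hx hx'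
  have all : ∀ g : G, ∀ i ∈ I', ∀ a b, ∀ x ∈ W a, α (i * g) x ∈ W b →
      ∃ T : IG E, ∀ᶠ y in 𝓝 x, φ b (α (i * g) y) = mo T (φ a y) := by
    intro g
    have hg : g ∈ Subgroup.closure (S : Set G) := by rw [hS]; trivial
    induction hg using Subgroup.closure_induction_left with
    | one => exact base
    | mul_left s hs g _ ih =>
      exact step s (Finset.mem_insert_of_mem (Finset.mem_union_left _ hs)) g ih
    | inv_mul_cancel s hs g _ ih =>
      exact step s⁻¹ (Finset.mem_insert_of_mem (Finset.mem_union_right _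
        (Finset.mem_image.2 ⟨s, hs, rfl⟩))) g ih
  intro g a b x hx hx'
  have := all g 1 h1I a b x hx
  rw [one_mul] at this
  exact this hx'

theorem assemble [FiniteDimensional ℝ E] (hE : 3 ≤ Module.finrank ℝ E) {G : Type} [Group G]
    {α : G →* (Sph E ≃ₜ Sph E)} (hα : IsConvergenceAction α) (hco : CocompactOnTriples α)
    {U : Set (Sph E)} (hU : IsOpen U) (hne : U.Nonempty)
    {φ : Sph E → Sph E} (hφ : IsChart φ U) (hL : ∀ g, LMat α φ U g) :
    ∃ (ρ : G →* IG E) (f : Sph E ≃ₜ Sph E), (∀ g x, f (α g x) = mo (ρ g) (f x)) ∧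
      (∀ K ⊆ Hyp E, IsCompact K →
        {g : G | ∃ v ∈ K, ((ρ g : IG E) : (ℝ × E) ≃L[ℝ] (ℝ × E)) v ∈ K}.Finite) ∧
      ∃ K ⊆ Hyp E, IsCompact K ∧ ∀ v ∈ Hyp E, ∃ g,
        ((ρ g : IG E) : (ℝ × E) ≃L[ℝ] (ℝ × E)) v ∈ K := by
  have : ProperSpace E := FiniteDimensional.proper ℝ E
  have hcS : CompactSpace (Sph E) := isCompact_iff_compactSpace.1 (isCompact_sphere (0 : E) 1)
  have hE2 : 2 ≤ Module.finrank ℝ E := by omega
  have hperf : Perf (Sph E) := perf_sph hE2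
  obtain ⟨h, V, p, q, hVU, hLox⟩ := exists_lox hperf hα hco hU hne
  obtain ⟨f, M, hf⟩ := develop hperf hU hφ hVU hLox (hL h)
  obtain ⟨ρ, hρ⟩ := represent hE hL f M hf
  refine ⟨ρ, f, hρ, ?_, cocompact hE2 hco f ρ hρ⟩
  set τ := ContinuousLinearMap.fst ℝ ℝ E with hτ
  set ρ' : G →* ((ℝ × E) ≃L[ℝ] (ℝ × E)) := (IG E).subtype.comp ρ with hρ'
  have hiso : ∀ g, IsIso (ρ' g) := fun g => isoOf (ρ g)
  have hS : IsStrictCone (Lc E) τ := isStrictCone_Lc
  have hpres : ∀ g, ∀ v ∈ Lc E, ρ' g v ∈ Lc E := fun g v hv => isIso_pres (hiso g) hv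
  have hHL : ∀ v ∈ Hyp E, v ∈ Lc E := fun v hv => mem_Lc_iff.2 ⟨by rw [hv.1]; exact one_pos, hv.2⟩
  have hposH : ∀ v ∈ Lc E, 0 < τ v := fun v hv => (mem_Lc_iff.1 hv).2
  have heq : IsEquivariant α (Lc E) τ ρ' (fun x => ((1 : ℝ), (f x : E))) := by
    refine ⟨by fun_prop, fun x => Bd_Lc.2 ⟨rfl, norm_coe _⟩, hpres, fun g x => ?_⟩
    have h1 : ρ' g ((1 : ℝ), (f x : E)) =
        cf (ρ g) (f x) • ((1 : ℝ), (f (α g x) : E)) := by
      rw [hρ]
      exact mo_spec (ρ g) (f x)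
    rw [h1, proj_smul (cf_pos (ρ g) (f x)).ne', proj_of_one]
    rfl
  obtain ⟨ξ, hξ⟩ := hne
  obtain ⟨y, z, hy, hz, hyz, -, -⟩ := three_near hperf ξ one_pos
  set t : Fin 3 → Sph E := ![ξ, y, z] with ht
  have htne : ∀ i j, i ≠ j →
      ((1 : ℝ), (f (t i) : E)) ≠ ((1 : ℝ), (f (t j) : E)) := by
    intro i j hij hc
    have h1 : (f (t i) : E) = (f (t j) : E) := congrArg Prod.snd hc
    have h2 : t i = t j := f.injective (Subtype.ext h1)
    fin_cases i <;> fin_cases j <;> simp [ht] at hij h2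
    · exact hy h2.symm
    · exact hz h2.symm
    · exact hy h2
    · exact hyz h2
    · exact hz h2
    · exact hyz h2.symm
  intro K hK hKc
  have hc : ContinuousOn (proj τ) K := fun v hv =>
    (continuousAt_proj (hposH v (hHL v (hK hv))).ne').continuousWithinAt
  refine (proper (K := proj τ '' K) hα hS heq htne (hKc.image_of_continuousOn hc) ?_).subset ?_
  · rintro _ ⟨v, hv, rfl⟩
    exact proj_mem_Dom hS (hHL v (hK hv)) (hposH v (hHL v (hK hv)))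
  · rintro g ⟨v, hv, hgv⟩
    refine ⟨proj τ v, ⟨v, hv, rfl⟩, ρ' g v, hgv, ?_⟩
    have hp := hposH v (hHL v (hK hv))
    conv_rhs => rw [proj.eq_1 τ v, map_smul, proj_smul (inv_ne_zero hp.ne')]

end Pool.Agent.TH311.LM
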