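import Pool.Agent.TH289.C.C6

/-!
# Isometries of hyperbolic space and their action on the boundary sphere
-/

set_option autoImplicit false

open Filter Topology Set
open Pool.Agent.TH289.C

namespace Pool.Agent.TH311.LM

variable {E : Type} [NormedAddCommGroup E] [InnerProductSpace ℝ E]

theorem iso_bf {T : (ℝ × E) ≃L[ℝ] (ℝ × E)} (hT : IsIso T) (v w : ℝ × E) :
    bf (T v) (T w) = bf v w := by
  have h1 := qf_add (T v) (T w)
  have h2 := qf_add v w
  rw [← map_add, hT.1, hT.1, hT.1] at h1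
  linarith

theorem one_mem_Lc : ((1 : ℝ), (0 : E)) ∈ Lc E := by simp [Lc]

theorem isIso_one : IsIso (1 : (ℝ × E) ≃L[ℝ] (ℝ × E)) := by
  refine ⟨fun v => rfl, ?_⟩
  change (0 : ℝ) < ((1 : ℝ), (0 : E)).1
  norm_num

theorem isIso_mul {T S : (ℝ × E) ≃L[ℝ] (ℝ × E)} (hT : IsIso T) (hS : IsIso S) :
    IsIso (T * S) := by
  refine ⟨fun v => ?_, ?_⟩
  · change qf (T (S v)) = qf v
    rw [hT.1, hS.1]
  · have h := isIso_pres hT (isIso_pres hS (one_mem_Lc (E := E)))
    exact (mem_Lc_iff.1 h).2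

theorem isIso_inv {T : (ℝ × E) ≃L[ℝ] (ℝ × E)} (hT : IsIso T) : IsIso T⁻¹ := by
  have h1 : ∀ v, T (T⁻¹ v) = v := fun v => T.apply_symm_apply v
  refine ⟨fun v => ?_, ?_⟩
  · rw [← hT.1, h1]
  · have h := iso_bf hT (T⁻¹ (1, 0)) (1, 0)
    rw [h1] at h
    have h2 := hT.2
    simp only [bf, one_mul, inner_zero_left, inner_zero_right, sub_zero, mul_one] at h
    rw [← h]
    exact h2

/-- The group of isometries of hyperbolic space. -/
def IG (E : Type) [NormedAddCommGroup E] [InnerProductSpace ℝ E] :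
    Subgroup ((ℝ × E) ≃L[ℝ] (ℝ × E)) where
  carrier := {T | IsIso T}
  mul_mem' := fun h1 h2 => isIso_mul h1 h2
  one_mem' := isIso_one
  inv_mem' := fun h => isIso_inv h

theorem isoOf (T : IG E) : IsIso (T : (ℝ × E) ≃L[ℝ] (ℝ × E)) := T.2

/-- The conformal factor. -/
noncomputable def cf (T : IG E) (x : Sph E) : ℝ :=
  ((T : (ℝ × E) ≃L[ℝ] (ℝ × E)) (1, (x : E))).1

theorem light_props (T : IG E) (x : Sph E) :
    0 < cf T x ∧ ‖((T : (ℝ × E) ≃L[ℝ] (ℝ × E)) (1, (x : E))).2‖ = cf T x := by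
  set v : ℝ × E := (T : (ℝ × E) ≃L[ℝ] (ℝ × E)) (1, (x : E)) with hv
  have hx := norm_coe x
  have hcl : ((1 : ℝ), (x : E)) ∈ closure (Lc E) := by
    rw [closure_Lc]
    simp [hx]
  have h1 : v ∈ closure (Lc E) := by
    have hm : MapsTo (fun v : ℝ × E => (T : (ℝ × E) ≃L[ℝ] (ℝ × E)) v) (Lc E) (Lc E) :=
      fun v hv => isIso_pres (isoOf T) hv
    exact hm.closure (T : (ℝ × E) ≃L[ℝ] (ℝ × E)).continuous hcl
  rw [closure_Lc] at h1
  have h2 : ‖v.2‖ ≤ v.1 := h1
  have h3 : qf v = 0 := by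
    rw [hv, (isoOf T).1]
    simp [qf, hx]
  have h4 : v ≠ 0 := by
    intro h0
    have : ((1 : ℝ), (x : E)) = 0 := (T : (ℝ × E) ≃L[ℝ] (ℝ × E)).map_eq_zero_iff.1 h0
    have := congrArg Prod.fst this
    simp at this
  have h5 : v.1 ^ 2 = ‖v.2‖ ^ 2 := by
    unfold qf at h3; linarith
  have h6 : ‖v.2‖ = v.1 := by
    have h7 := norm_nonneg v.2
    nlinarith
  refine ⟨?_, h6⟩
  change 0 < v.1
  rcases ((norm_nonneg v.2).trans h2).eq_or_lt with h | h
  · exfalso
    apply h4
    have : v.2 = 0 := by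
      rw [← norm_eq_zero, h6, ← h]
    exact Prod.ext h.symm this
  · exact h

theorem cf_pos (T : IG E) (x : Sph E) : 0 < cf T x := (light_props T x).1

/-- The action of isometries on the boundary sphere. -/
noncomputable def mo (T : IG E) (x : Sph E) : Sph E :=
  ⟨(cf T x)⁻¹ • ((T : (ℝ × E) ≃L[ℝ] (ℝ × E)) (1, (x : E))).2, by
    have h := light_props T x
    rw [mem_sphere_zero_iff_norm, norm_smul, h.2, norm_inv, Real.norm_of_nonneg h.1.le,
      inv_mul_cancel₀ h.1.ne']⟩

theorem mo_spec (T : IG E) (x : Sph E) :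
    (T : (ℝ × E) ≃L[ℝ] (ℝ × E)) (1, (x : E)) = cf T x • ((1 : ℝ), (mo T x : E)) := by
  have h := cf_pos T x
  apply Prod.ext
  · simp [cf]
  · simp only [mo, Prod.smul_mk, smul_smul]
    rw [mul_inv_cancel₀ h.ne', one_smul]

theorem mo_unique {T : IG E} {x y : Sph E} {c : ℝ}
    (h : (T : (ℝ × E) ≃L[ℝ] (ℝ × E)) (1, (x : E)) = c • ((1 : ℝ), (y : E))) :
    c = cf T x ∧ y = mo T x := by
  have h1 : c = cf T x := by
    have := congrArg Prod.fst h
    simp only [Prod.smul_mk, smul_eq_mul, mul_one] at this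
    exact this.symm
  refine ⟨h1, ?_⟩
  have h2 := mo_spec T x
  rw [h, h1] at h2
  have h3 := congrArg Prod.snd h2
  simp only [Prod.smul_mk] at h3
  exact Subtype.ext (smul_right_injective E (cf_pos T x).ne' h3)

theorem mo_mul (T S : IG E) (x : Sph E) : mo (T * S) x = mo T (mo S x) := by
  symm
  refine (mo_unique (T := T * S) (x := x) (c := cf S x * cf T (mo S x)) ?_).2
  change (T : (ℝ × E) ≃L[ℝ] (ℝ × E)) ((S : (ℝ × E) ≃L[ℝ] (ℝ × E)) (1, (x : E))) = _
  rw [mo_spec S x, map_smul, mo_spec T (mo S x), smul_smul]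

theorem mo_one (x : Sph E) : mo (1 : IG E) x = x := by
  symm
  refine (mo_unique (T := (1 : IG E)) (x := x) (c := 1) ?_).2
  rw [one_smul]
  rfl

theorem mo_inv_mo (T : IG E) (x : Sph E) : mo T⁻¹ (mo T x) = x := by
  rw [← mo_mul, inv_mul_cancel, mo_one]

theorem mo_mo_inv (T : IG E) (x : Sph E) : mo T (mo T⁻¹ x) = x := by
  rw [← mo_mul, mul_inv_cancel, mo_one]

theorem continuous_cf (T : IG E) : Continuous (cf T) := by
  unfold cf
  exact continuous_fst.comp ((T : (ℝ × E) ≃L[ℝ] (ℝ × E)).continuous.comp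
    (continuous_const.prodMk continuous_subtype_val))

theorem continuous_mo (T : IG E) : Continuous (mo T) := by
  unfold mo
  refine Continuous.subtype_mk ?_ _
  exact ((continuous_cf T).inv₀ fun x => (cf_pos T x).ne').smul
    (continuous_snd.comp ((T : (ℝ × E) ≃L[ℝ] (ℝ × E)).continuous.comp
    (continuous_const.prodMk continuous_subtype_val)))

/-- `mo T` as a homeomorphism. -/
noncomputable def moH (T : IG E) : Sph E ≃ₜ Sph E where
  toFun := mo T
  invFun := mo T⁻¹
  left_inv := mo_inv_mo T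
  right_inv := mo_mo_inv T
  continuous_toFun := continuous_mo T
  continuous_invFun := continuous_mo T⁻¹

theorem bf_light (x y : Sph E) : bf ((1 : ℝ), (x : E)) (1, (y : E)) = dist x y ^ 2 / 2 := by
  have h : dist x y = ‖(x : E) - y‖ := by
    rw [← dist_eq_norm]; rfl
  rw [h, norm_sub_sq_real, norm_coe, norm_coe]
  unfold bf
  ring

theorem rel (T : IG E) (x y : Sph E) :
    cf T x * cf T y * dist (mo T x) (mo T y) ^ 2 = dist x y ^ 2 := by
  have h := iso_bf (isoOf T) (1, (x : E)) (1, (y : E))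
  rw [mo_spec T x, mo_spec T y, bf_light] at h
  have h2 : bf (cf T x • ((1 : ℝ), (mo T x : E))) (cf T y • ((1 : ℝ), (mo T y : E))) =
      cf T x * cf T y * bf ((1 : ℝ), (mo T x : E)) (1, (mo T y : E)) := by
    unfold bf
    simp only [Prod.smul_mk, inner_smul_left, inner_smul_right]
    simp
    ring
  rw [h2, bf_light] at h
  linarith

theorem dist_le_two (x y : Sph E) : dist x y ≤ 2 := by
  have h : dist x y = ‖(x : E) - y‖ := by
    rw [← dist_eq_norm]; rfl
  rw [h]
  have := norm_sub_le (x : E) y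
  rw [norm_coe, norm_coe] at this
  linarith

/-- A unit vector orthogonal to `x`. -/
theorem exists_orth [FiniteDimensional ℝ E] (hE : 2 ≤ Module.finrank ℝ E) (x : Sph E) :
    ∃ w : E, ‖w‖ = 1 ∧ inner ℝ (x : E) w = 0 := by
  have h1 := Submodule.finrank_add_finrank_orthogonal (Submodule.span ℝ {(x : E)})
  have h2 : Module.finrank ℝ (Submodule.span ℝ {(x : E)}) ≤ 1 := by
    have := finrank_span_le_card (R := ℝ) ({(x : E)} : Set E)
    simpa using this
  have h3 : 0 < Module.finrank ℝ (Submodule.span ℝ {(x : E)})ᗮ := by omega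
  have h4 : Nontrivial (Submodule.span ℝ {(x : E)})ᗮ := Module.nontrivial_of_finrank_pos h3
  obtain ⟨⟨w, hw⟩, hw0⟩ := exists_ne (0 : (Submodule.span ℝ {(x : E)})ᗮ)
  have hw0' : w ≠ 0 := fun h => hw0 (Subtype.ext h)
  have hn := norm_pos_iff.2 hw0'
  refine ⟨‖w‖⁻¹ • w, ?_, ?_⟩
  · rw [norm_smul, norm_inv, norm_norm, inv_mul_cancel₀ hn.ne']
  · rw [inner_smul_right]
    have := (Submodule.mem_orthogonal_singleton_iff_inner_right (𝕜 := ℝ)).1 hw
    rw [this, mul_zero]

/-- The great circle through `x` in the direction `w`. -/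
noncomputable def circ (x : Sph E) (w : E) (hw : ‖w‖ = 1) (hxw : inner ℝ (x : E) w = 0)
    (θ : ℝ) : Sph E :=
  ⟨Real.cos θ • (x : E) + Real.sin θ • w, by
    rw [mem_sphere_zero_iff_norm]
    have h : ‖Real.cos θ • (x : E) + Real.sin θ • w‖ ^ 2 = 1 := by
      rw [norm_add_sq_real, norm_smul, norm_smul, inner_smul_left, inner_smul_right, hxw,
        norm_coe, hw]
      simp only [Real.norm_eq_abs, mul_one, mul_zero, add_zero, sq_abs]
      exact Real.cos_sq_add_sin_sq θ
    have h0 := norm_nonneg (Real.cos θ • (x : E) + Real.sin θ • w)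
    nlinarith⟩

theorem circ_zero (x : Sph E) (w : E) (hw : ‖w‖ = 1) (hxw : inner ℝ (x : E) w = 0) :
    circ x w hw hxw 0 = x := by
  apply Subtype.ext
  simp [circ]

theorem continuous_circ (x : Sph E) (w : E) (hw : ‖w‖ = 1) (hxw : inner ℝ (x : E) w = 0) :
    Continuous (circ x w hw hxw) := by
  unfold circ
  refine Continuous.subtype_mk ?_ _
  fun_prop

theorem circ_small {x : Sph E} {O : Set (Sph E)} (hO : O ∈ 𝓝 x) (w : E) (hw : ‖w‖ = 1)
    (hxw : inner ℝ (x : E) w = 0) :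
    ∃ θ : ℝ, 0 < θ ∧ θ < Real.pi / 2 ∧ circ x w hw hxw θ ∈ O ∧ circ x w hw hxw (-θ) ∈ O := by
  have h1 : ∀ᶠ θ in 𝓝 (0 : ℝ), circ x w hw hxw θ ∈ O := by
    have := (continuous_circ x w hw hxw).tendsto 0
    rw [circ_zero] at this
    exact this hO
  have h2 : ∀ᶠ θ in 𝓝 (0 : ℝ), circ x w hw hxw (-θ) ∈ O := by
    have : Tendsto (fun θ : ℝ => -θ) (𝓝 0) (𝓝 0) := by
      have := (continuous_neg (G := ℝ)).tendsto 0
      simpa using this
    exact this.eventually h1
  have h3 : ∀ᶠ θ in 𝓝 (0 : ℝ), θ < Real.pi / 2 := by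
    exact (isOpen_Iio.mem_nhds (by positivity : (0 : ℝ) < Real.pi / 2))
  obtain ⟨ε, hε, hε'⟩ := Metric.eventually_nhds_iff.1 (h1.and (h2.and h3))
  have h4 := hε' (y := ε / 2) (by
    rw [Real.dist_eq, sub_zero, abs_of_pos (by positivity)]
    linarith)
  exact ⟨ε / 2, by positivity, h4.2.2, h4.1, h4.2.1⟩

/-- An isometry fixing a nonempty open set of boundary points is the identity. -/
theorem eq_one_of_fix [FiniteDimensional ℝ E] (hE : 2 ≤ Module.finrank ℝ E) {S : IG E}
    {x : Sph E} (h : ∀ᶠ y in 𝓝 x, mo S y = y) : S = 1 := by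
  set O : Set (Sph E) := {y | mo S y = y} with hO
  have hOn : O ∈ 𝓝 x := h
  have hfix : ∀ y ∈ O, (S : (ℝ × E) ≃L[ℝ] (ℝ × E)) (1, (y : E)) = cf S y • ((1 : ℝ), (y : E)) := by
    intro y hy
    have := mo_spec S y
    rwa [show mo S y = y from hy] at this
  have hcc : ∀ y ∈ O, ∀ z ∈ O, y ≠ z → cf S y * cf S z = 1 := by
    intro y hy z hz hyz
    have h1 := rel S y z
    rw [show mo S y = y from hy, show mo S z = z from hz] at h1
    have h2 : 0 < dist y z ^ 2 := by
      have := dist_pos.2 hyz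
      positivity
    exact mul_right_cancel₀ h2.ne' (by linarith)
  obtain ⟨O', hO', hO'o, hxO'⟩ := mem_nhds_iff.1 hOn
  have hc1 : ∀ y ∈ O', cf S y = 1 := by
    intro y hy
    obtain ⟨w, hw, hyw⟩ := exists_orth hE y
    obtain ⟨θ, hθ, hθ2, ha, hb⟩ := circ_small (hO'o.mem_nhds hy) w hw hyw
    have hs : 0 < Real.sin θ := Real.sin_pos_of_pos_of_lt_pi hθ (by linarith [Real.pi_pos])
    have hw0 : w ≠ 0 := by
      intro h0
      rw [h0] at hw
      simp at hw
    -- inner with w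
    have hin : ∀ t : ℝ, inner ℝ ((circ y w hw hyw t : Sph E) : E) w = Real.sin t := by
      intro t
      change inner ℝ (Real.cos t • (y : E) + Real.sin t • w) w = _
      rw [inner_add_left, inner_smul_left, inner_smul_left, hyw, real_inner_self_eq_norm_sq, hw]
      simp
    have h0 : circ y w hw hyw 0 = y := circ_zero y w hw hyw
    have d1 : y ≠ circ y w hw hyw θ := by
      intro he
      have h1 := hin θ
      rw [← he, hyw] at h1
      linarith
    have d2 : y ≠ circ y w hw hyw (-θ) := by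
      intro he
      have h1 := hin (-θ)
      rw [← he, hyw, Real.sin_neg] at h1
      linarith
    have d3 : circ y w hw hyw θ ≠ circ y w hw hyw (-θ) := by
      intro he
      have h1 := hin (-θ)
      rw [← he, hin, Real.sin_neg] at h1
      linarith
    have e1 := hcc y (hO' hy) _ (hO' ha) d1
    have e2 := hcc y (hO' hy) _ (hO' hb) d2
    have e3 := hcc _ (hO' ha) _ (hO' hb) d3
    have p1 := cf_pos S y
    have p2 := cf_pos S (circ y w hw hyw θ)
    have p3 := cf_pos S (circ y w hw hyw (-θ))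
    have e4 : cf S (circ y w hw hyw θ) = cf S (circ y w hw hyw (-θ)) :=
      mul_left_cancel₀ p1.ne' (by rw [e1, e2])
    rw [e4] at e3
    have e5 : cf S (circ y w hw hyw (-θ)) = 1 := by nlinarith
    rw [e5, mul_one] at e2
    exact e2
  have hfix' : ∀ y ∈ O', (S : (ℝ × E) ≃L[ℝ] (ℝ × E)) (1, (y : E)) = ((1 : ℝ), (y : E)) := by
    intro y hy
    rw [hfix y (hO' hy), hc1 y hy, one_smul]
  apply Subtype.ext
  refine ContinuousLinearEquiv.ext (funext fun v => ?_)
  change (S : (ℝ × E) ≃L[ℝ] (ℝ × E)) v = v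
  set u : ℝ × E := (S : (ℝ × E) ≃L[ℝ] (ℝ × E)) v - v with hu
  have hb : ∀ y ∈ O', u.1 = inner ℝ u.2 (y : E) := by
    intro y hy
    have h1 := iso_bf (isoOf S) v (1, (y : E))
    rw [hfix' y hy] at h1
    have h2 : bf u (1, (y : E)) = 0 := by
      rw [hu]
      unfold bf at h1 ⊢
      simp only [Prod.fst_sub, Prod.snd_sub, inner_sub_left]
      linarith
    unfold bf at h2
    simp only [mul_one] at h2
    linarith
  have key : ∀ w : E, ‖w‖ = 1 → inner ℝ (x : E) w = 0 → u.1 = 0 ∧ inner ℝ u.2 w = 0 := by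
    intro w hw hxw
    obtain ⟨θ, hθ, hθ2, ha, hb'⟩ := circ_small (hO'o.mem_nhds hxO') w hw hxw
    have hs : 0 < Real.sin θ := Real.sin_pos_of_pos_of_lt_pi hθ (by linarith [Real.pi_pos])
    have hc : Real.cos θ < 1 := by
      have h1 := Real.cos_sq_add_sin_sq θ
      have h2 : 0 < Real.sin θ ^ 2 := by positivity
      nlinarith [Real.cos_le_one θ]
    have e0 := hb x hxO'
    have e1 := hb _ ha
    have e2 := hb _ hb'
    have f1 : ∀ t : ℝ, inner ℝ u.2 ((circ x w hw hxw t : Sph E) : E) =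
        Real.cos t * inner ℝ u.2 (x : E) + Real.sin t * inner ℝ u.2 w := by
      intro t
      change inner ℝ u.2 (Real.cos t • (x : E) + Real.sin t • w) = _
      rw [inner_add_right, inner_smul_right, inner_smul_right]
    rw [f1, ← e0] at e1 e2
    rw [Real.cos_neg, Real.sin_neg] at e2
    have g1 : (1 - Real.cos θ) * u.1 = 0 := by linarith
    have g2 : Real.sin θ * inner ℝ u.2 w = 0 := by linarith
    refine ⟨?_, ?_⟩
    · rcases mul_eq_zero.1 g1 with h | h
      · linarith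
      · exact h
    · rcases mul_eq_zero.1 g2 with h | h
      · linarith
      · exact h
  obtain ⟨w₀, hw₀, hxw₀⟩ := exists_orth hE x
  have hu1 : u.1 = 0 := (key w₀ hw₀ hxw₀).1
  have hux : inner ℝ u.2 (x : E) = 0 := by
    rw [← hb x hxO', hu1]
  have hu2 : u.2 = 0 := by
    by_contra hne
    have hn := norm_pos_iff.2 hne
    have h1 := (key (‖u.2‖⁻¹ • u.2) (by
      rw [norm_smul, norm_inv, norm_norm, inv_mul_cancel₀ hn.ne']) (by
      rw [inner_smul_right, real_inner_comm, hux, mul_zero])).2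
    rw [inner_smul_right, real_inner_self_eq_norm_sq] at h1
    have h2 : 0 < ‖u.2‖⁻¹ * ‖u.2‖ ^ 2 := by positivity
    linarith
  have : u = 0 := Prod.ext hu1 hu2
  exact sub_eq_zero.1 this

theorem eq_of_agree [FiniteDimensional ℝ E] (hE : 2 ≤ Module.finrank ℝ E) {S T : IG E}
    {x : Sph E} (h : ∀ᶠ y in 𝓝 x, mo S y = mo T y) : S = T := by
  have h1 : T⁻¹ * S = 1 := by
    refine eq_one_of_fix hE (x := x) ?_
    filter_upwards [h] with y hy
    rw [mo_mul, hy, mo_inv_mo]
  have := congrArg (fun z => T * z) h1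
  simpa using this

end Pool.Agent.TH311.LM
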