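import Pool.Agent.TH289.C.C3

/-!
# Dynamics of a uniform convergence action: contracting elements
-/

set_option autoImplicit false

open Filter Topology Set
open Pool.Agent.TH289.C

namespace Pool.Agent.TH311.LM

variable {G : Type} [Group G] {X : Type} [MetricSpace X] [CompactSpace X]

/-- No isolated points. -/
def Perf (X : Type) [MetricSpace X] : Prop := ∀ (ξ : X) (r : ℝ), 0 < r → ∃ y, y ≠ ξ ∧ dist y ξ < r

/-- `g n` converges to `a` off `b`. -/
def Att (α : G →* (X ≃ₜ X)) (g : ℕ → G) (a b : X) : Prop :=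
  ∀ U ∈ 𝓝 a, ∀ W ∈ 𝓝 b, ∀ᶠ n in atTop, ∀ x, x ∉ W → α (g n) x ∈ U

theorem amul (α : G →* (X ≃ₜ X)) (g h : G) (x : X) : α (g * h) x = α g (α h x) := by
  rw [map_mul]; rfl

theorem aone (α : G →* (X ≃ₜ X)) (x : X) : α 1 x = x := by
  rw [map_one]; rfl

theorem ainv (α : G →* (X ≃ₜ X)) (g : G) (x : X) : α g⁻¹ (α g x) = x := by
  rw [← amul, inv_mul_cancel, aone]

theorem ainv' (α : G →* (X ≃ₜ X)) (g : G) (x : X) : α g (α g⁻¹ x) = x := by
  rw [← amul, mul_inv_cancel, aone]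

theorem att_tendsto {α : G →* (X ≃ₜ X)} {g : ℕ → G} {a b : X} (h : Att α g a b) {x : X}
    (hx : x ≠ b) : Tendsto (fun n => α (g n) x) atTop (𝓝 a) := by
  intro W hW
  have := h W hW {x}ᶜ (isOpen_compl_singleton.mem_nhds (by simpa using hx.symm))
  rw [Filter.mem_map]
  filter_upwards [this] with n hn
  exact hn x (by simp)

/-- Two more points near `ξ`. -/
theorem three_near (hp : Perf X) (ξ : X) {r : ℝ} (hr : 0 < r) :
    ∃ y z, y ≠ ξ ∧ z ≠ ξ ∧ y ≠ z ∧ dist y ξ < r ∧ dist z ξ < r := by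
  obtain ⟨y, hy, hyr⟩ := hp ξ r hr
  obtain ⟨z, hz, hzr⟩ := hp ξ (dist y ξ) (dist_pos.2 hy)
  refine ⟨y, z, hy, hz, ?_, hyr, hzr.trans hyr⟩
  rintro rfl
  exact lt_irrefl _ hzr

/-- A point near `ξ` different from `ξ` and `b`. -/
theorem near_off (hp : Perf X) (ξ b : X) {r : ℝ} (hr : 0 < r) :
    ∃ y, y ≠ ξ ∧ y ≠ b ∧ dist y ξ < r := by
  obtain ⟨y, z, hy, hz, hyz, hyr, hzr⟩ := three_near hp ξ hr
  by_cases h : y = b
  · exact ⟨z, hz, fun h' => hyz (h.trans h'.symm), hzr⟩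
  · exact ⟨y, hy, h, hyr⟩

/-- Every point is a conical limit point. -/
theorem conical (hp : Perf X) {α : G →* (X ≃ₜ X)} (hα : IsConvergenceAction α)
    (hco : CocompactOnTriples α) (ξ : X) : ∃ (g : ℕ → G) (b : X), Att α g ξ b := by
  obtain ⟨ε, hε, hco⟩ := hco
  obtain ⟨z, hz, -⟩ := hp ξ 1 one_pos
  have hz0 := dist_pos.2 hz
  have h1 : ∀ n : ℕ, ∃ y, y ≠ ξ ∧ y ≠ z ∧ dist y ξ < 1 / ((n : ℝ) + 1) := fun n =>
    near_off hp ξ z (by positivity)
  choose y hy1 hy2 hy3 using h1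
  set t : ℕ → Fin 3 → X := fun n => ![ξ, y n, z] with ht
  have hsep : ∀ n, 0 < sep (t n) := by
    intro n
    refine lt_sep fun i j hij => ?_
    rw [dist_pos]
    fin_cases i <;> fin_cases j <;> simp [ht] at hij ⊢
    · exact (hy1 n).symm
    · exact hz.symm
    · exact hy1 n
    · exact hy2 n
    · exact hz
    · exact (hy2 n).symm
  have h2 : ∀ n, ∃ g : G, ε ≤ sep (act α g (t n)) := fun n => exists_wt_pos hε hco (hsep n)
  choose g hg using h2
  obtain ⟨φ, hφ, b, hb⟩ := attract_of_near hα hε (ξ := ξ) (fun n => (g n)⁻¹) t (fun n => by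
    refine ⟨0, 1, by decide, ?_, ?_⟩
    · simp [ht]
      positivity
    · simpa [ht] using hy3 n) (fun n => by
    rw [inv_inv]
    exact hg n)
  exact ⟨fun n => (g (φ n))⁻¹, b, hb⟩

/-- No nonempty open set is fixed pointwise. -/
theorem non_fixed (hp : Perf X) {α : G →* (X ≃ₜ X)} (hα : IsConvergenceAction α)
    (hco : CocompactOnTriples α) {U : Set X} (hU : IsOpen U) (hne : U.Nonempty) :
    ∃ ξ ∈ U, ∃ c, α c ξ ≠ ξ := by
  by_contra hcon
  push Not at hcon
  obtain ⟨ξ, hξ⟩ := hne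
  obtain ⟨g, b, hg⟩ := conical hp hα hco ξ
  obtain ⟨r, hr, hrU⟩ := Metric.isOpen_iff.1 hU ξ hξ
  obtain ⟨y, hy, hyb, hyr⟩ := near_off hp ξ b hr
  have h1 := att_tendsto hg hyb
  have h2 : ∀ n, α (g n) y = y := fun n => hcon y (hrU hyr) (g n)
  simp only [h2] at h1
  exact hy (tendsto_nhds_unique tendsto_const_nhds h1)

/-- A convergence sequence with attracting point in `U` different from the repelling point. -/
theorem exists_att (hp : Perf X) {α : G →* (X ≃ₜ X)} (hα : IsConvergenceAction α)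
    (hco : CocompactOnTriples α) {U : Set X} (hU : IsOpen U) (hne : U.Nonempty) :
    ∃ ξ ∈ U, ∃ (g : ℕ → G) (b : X), b ≠ ξ ∧ Att α g ξ b := by
  obtain ⟨ξ, hξ, c, hc⟩ := non_fixed hp hα hco hU hne
  obtain ⟨g, b, hg⟩ := conical hp hα hco ξ
  refine ⟨ξ, hξ, ?_⟩
  by_cases hb : b = ξ
  · refine ⟨fun n => g n * c, α c⁻¹ b, ?_, ?_⟩
    · intro h
      apply hc
      have := congrArg (α c) h
      rw [ainv'] at this
      rw [← this, hb]
    · intro V hV W hW
      have hW' : (α c) '' W ∈ 𝓝 b := by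
        have h1 : (α c⁻¹) ⁻¹' W ∈ 𝓝 b := (α c⁻¹).continuous.continuousAt hW
        refine mem_of_superset h1 fun x hx => ?_
        exact ⟨α c⁻¹ x, hx, ainv' α c x⟩
      filter_upwards [hg V hV _ hW'] with n hn x hx
      rw [amul]
      apply hn
      rintro ⟨x', hx', hxx⟩
      exact hx ((α c).injective hxx ▸ hx')
  · exact ⟨g, b, hb, hg⟩

/-- `h` contracts: `V` is a neighbourhood of the attracting point `p`, `q` is the repelling point. -/
structure Lox (α : G →* (X ≃ₜ X)) (h : G) (V : Set X) (p q : X) : Prop where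
  isOpen : IsOpen V
  p_mem : p ∈ V
  q_notMem : q ∉ V
  fix_p : α h p = p
  fix_q : α h q = q
  maps : ∀ x ∈ V, α h x ∈ V
  ent : ∀ x, x ≠ q → ∃ k : ℕ, α (h ^ k) x ∈ V
  contr : ∀ N ∈ 𝓝 p, ∃ m : ℕ, ∀ k, m ≤ k → ∀ x ∈ V, α (h ^ k) x ∈ N

theorem exists_lox (hp : Perf X) {α : G →* (X ≃ₜ X)} (hα : IsConvergenceAction α)
    (hco : CocompactOnTriples α) {U : Set X} (hU : IsOpen U) (hne : U.Nonempty) :
    ∃ (h : G) (V : Set X) (p q : X), V ⊆ U ∧ Lox α h V p q := by
  obtain ⟨ξ, hξ, g, b', hb', hg⟩ := exists_att hp hα hco hU hne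
  obtain ⟨r₀, hr₀, hrU⟩ := Metric.isOpen_iff.1 hU ξ hξ
  obtain ⟨y₀, hy₀, hy₀b, -⟩ := near_off hp ξ b' one_pos
  have hd0 := dist_pos.2 hb'
  have hd1 := dist_pos.2 hy₀
  have hd2 := dist_pos.2 hy₀b
  obtain ⟨r, hr, hr1, hr2, hr3, hr4⟩ : ∃ r : ℝ, 0 < r ∧ r < r₀ ∧ 4 * r < dist b' ξ ∧
      r < dist y₀ ξ ∧ r < dist y₀ b' := by
    refine ⟨min (min (r₀ / 2) (dist b' ξ / 8)) (min (dist y₀ ξ / 2) (dist y₀ b' / 2)), ?_, ?_, ?_,
      ?_, ?_⟩
    · exact lt_min (lt_min (by positivity) (by positivity)) (lt_min (by positivity) (by positivity))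
    · have h1 : min (min (r₀ / 2) (dist b' ξ / 8)) (min (dist y₀ ξ / 2) (dist y₀ b' / 2)) ≤ r₀ / 2 :=
        (min_le_left _ _).trans (min_le_left _ _)
      linarith
    · have h1 : min (min (r₀ / 2) (dist b' ξ / 8)) (min (dist y₀ ξ / 2) (dist y₀ b' / 2)) ≤
          dist b' ξ / 8 := (min_le_left _ _).trans (min_le_right _ _)
      linarith
    · have h1 : min (min (r₀ / 2) (dist b' ξ / 8)) (min (dist y₀ ξ / 2) (dist y₀ b' / 2)) ≤
          dist y₀ ξ / 2 := (min_le_right _ _).trans (min_le_left _ _)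
      linarith
    · have h1 : min (min (r₀ / 2) (dist b' ξ / 8)) (min (dist y₀ ξ / 2) (dist y₀ b' / 2)) ≤
          dist y₀ b' / 2 := (min_le_right _ _).trans (min_le_right _ _)
      linarith
  set V := Metric.ball ξ r with hV
  set W := Metric.ball b' r with hW
  obtain ⟨n₀, hn₀⟩ := (hg V (Metric.ball_mem_nhds ξ hr) W (Metric.ball_mem_nhds b' hr)).exists
  set h := g n₀ with hh
  have hVo : IsOpen V := Metric.isOpen_ball
  have hVcW : ∀ x, dist x ξ ≤ r → x ∉ W := by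
    intro x hx hxW
    have h1 := dist_triangle_left b' ξ x
    have h2 : dist x b' < r := hxW
    linarith
  have hclV : ∀ x, dist x ξ ≤ r → α h x ∈ V := fun x hx => hn₀ x (hVcW x hx)
  have hVV : ∀ x ∈ V, α h x ∈ V := fun x hx => hclV x (le_of_lt hx)
  have hpow : ∀ (k : ℕ), ∀ x ∈ V, α (h ^ k) x ∈ V := by
    intro k
    induction k with
    | zero => intro x hx; rw [pow_zero, aone]; exact hx
    | succ k ih => intro x hx; rw [pow_succ', amul]; exact hVV _ (ih x hx)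
  have hpow' : ∀ (k : ℕ), ∀ x, x ∉ W → α (h ^ (k + 1)) x ∈ V := by
    intro k x hx
    rw [pow_succ, amul]
    exact hpow k _ (hn₀ x hx)
  have hne1 : ∀ k : ℕ, h ^ (k + 1) ≠ 1 := by
    intro k hk
    have h1 := hpow' k y₀ (fun hc => by
      have : dist y₀ b' < r := hc
      linarith)
    rw [hk, aone] at h1
    have : dist y₀ ξ < r := h1
    linarith
  have hinj : Function.Injective fun k : ℕ => h ^ k := by
    have key : ∀ k m : ℕ, k < m → h ^ k ≠ h ^ m := by
      intro k m hkm he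
      obtain ⟨j, rfl⟩ := Nat.exists_eq_add_of_lt hkm
      apply hne1 j
      have : h ^ (k + j + 1) = h ^ k * h ^ (j + 1) := by rw [← pow_add]; congr 1
      rw [this] at he
      exact (mul_eq_left.1 he.symm)
    intro k m he
    rcases lt_trichotomy k m with hl | hl | hl
    · exact absurd he (key k m hl)
    · exact hl
    · exact absurd he.symm (key m k hl)
  obtain ⟨φ, hφ, p, q, hpq⟩ := hα (fun k => h ^ k) (tendsto_cofinite_of_inj hinj)
  have hpq' : Att α (fun n => h ^ (φ n)) p q := hpq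
  have hVperf : ∃ x ∈ V, x ≠ q := by
    obtain ⟨y, hy, hyq, hyr⟩ := near_off hp ξ q hr
    exact ⟨y, hyr, hyq⟩
  have hpc : dist p ξ ≤ r := by
    obtain ⟨x, hxV, hxq⟩ := hVperf
    have h1 := att_tendsto hpq' hxq
    have h2 : Tendsto (fun n => dist (α (h ^ (φ n)) x) ξ) atTop (𝓝 (dist p ξ)) :=
      h1.dist tendsto_const_nhds
    exact le_of_tendsto h2 (Eventually.of_forall fun n => le_of_lt (hpow _ x hxV))
  have hent : ∀ x, x ≠ q → ∃ k : ℕ, α (h ^ k) x ∈ V := by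
    intro x hx
    have h1 := att_tendsto hpq' hx
    have h2 : (α h) ⁻¹' V ∈ 𝓝 p := (hVo.preimage (α h).continuous).mem_nhds (hclV p hpc)
    obtain ⟨n, hn⟩ := (h1.eventually h2).exists
    refine ⟨φ n + 1, ?_⟩
    rw [pow_succ', amul]
    exact hn
  have hmono : ∀ (k m : ℕ) (x : X), k ≤ m → α (h ^ k) x ∈ V → α (h ^ m) x ∈ V := by
    intro k m x hkm hx
    obtain ⟨j, rfl⟩ := Nat.exists_eq_add_of_le hkm
    rw [add_comm, pow_add, amul]
    exact hpow j _ hx
  have hq : ∀ k : ℕ, α (h ^ k) q ∉ V := by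
    intro k₀ hk₀
    have hall : ∀ x, ∃ k : ℕ, α (h ^ k) x ∈ V := by
      intro x
      by_cases hx : x = q
      · exact ⟨k₀, hx ▸ hk₀⟩
      · exact hent x hx
    have hcov : (univ : Set X) ⊆ ⋃ k : ℕ, (α (h ^ k)) ⁻¹' V := by
      intro x _
      obtain ⟨k, hk⟩ := hall x
      exact mem_iUnion.2 ⟨k, hk⟩
    obtain ⟨s, hs⟩ := isCompact_univ.elim_finite_subcover _
      (fun k : ℕ => hVo.preimage (α (h ^ k)).continuous) hcov
    set M := s.sup id with hM
    have h1 : ∀ x, α (h ^ M) x ∈ V := by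
      intro x
      obtain ⟨k, hk, hx⟩ := mem_iUnion₂.1 (hs (mem_univ x))
      exact hmono k M x (Finset.le_sup (f := id) hk) hx
    have h2 := h1 (α (h ^ M)⁻¹ b')
    rw [ainv'] at h2
    have h3 : dist b' ξ < r := h2
    linarith
  have hfq : α h q = q := by
    by_contra hc
    obtain ⟨k, hk⟩ := hent _ hc
    rw [← amul, ← pow_succ] at hk
    exact hq _ hk
  have hqV : q ∉ V := by
    have := hq 0
    rwa [pow_zero, aone] at this
  have hqc : ¬ dist q ξ ≤ r := by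
    intro hc
    have := hclV q hc
    rw [hfq] at this
    exact hqV this
  have hfp : α h p = p := by
    obtain ⟨x, hxV, hxq⟩ := hVperf
    have h1 := att_tendsto hpq' hxq
    have hxq' : α h x ≠ q := fun hc => hqV (hc ▸ hVV x hxV)
    have h2 := att_tendsto hpq' hxq'
    have h3 : Tendsto (fun n => α h (α (h ^ (φ n)) x)) atTop (𝓝 (α h p)) :=
      ((α h).continuous.tendsto p).comp h1
    have h4 : (fun n => α (h ^ (φ n)) (α h x)) = fun n => α h (α (h ^ (φ n)) x) := by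
      funext n
      rw [← amul, ← amul, ← pow_succ, ← pow_succ']
    rw [h4] at h2
    exact tendsto_nhds_unique h3 h2
  have hpV : p ∈ V := by
    rw [← hfp]
    exact hclV p hpc
  refine ⟨h, V, p, q, fun x hx => hrU (lt_trans hx hr1), ⟨hVo, hpV, hqV, hfp, hfq, hVV, hent, ?_⟩⟩
  intro N hN
  have hWq : {x | r < dist x ξ} ∈ 𝓝 q :=
    (isOpen_lt continuous_const (continuous_id.dist continuous_const)).mem_nhds (not_le.1 hqc)
  obtain ⟨n, hn⟩ := (hpq' N hN _ hWq).exists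
  refine ⟨φ n, fun k hk x hx => ?_⟩
  obtain ⟨j, rfl⟩ := Nat.exists_eq_add_of_le hk
  rw [pow_add, amul]
  apply hn
  intro hc
  have h1 : dist (α (h ^ j) x) ξ < r := hpow j x hx
  have h2 : r < dist (α (h ^ j) x) ξ := hc
  linarith

end Pool.Agent.TH311.LM
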