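import Pool.Agent.TH311.LM.L1
import Pool.Agent.TH311.LM.L2

/-!
# The developing map of a locally Moebius chart
-/

set_option autoImplicit false

open Filter Topology Set
open Pool.Agent.TH289.C

namespace Pool.Agent.TH311.LM

variable {E : Type} [NormedAddCommGroup E] [InnerProductSpace ℝ E]

/-- `φ` is an open embedding of `U` into the sphere. -/
structure IsChart (φ : Sph E → Sph E) (U : Set (Sph E)) : Prop where
  cont : ContinuousOn φ U
  inj : InjOn φ U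
  isOpen_image : ∀ O ⊆ U, IsOpen O → IsOpen (φ '' O)

/-- `g` is locally Moebius on `U` in the chart `φ`. -/
def LMat {G : Type} [Group G] (α : G →* (Sph E ≃ₜ Sph E)) (φ : Sph E → Sph E) (U : Set (Sph E))
    (g : G) : Prop :=
  ∀ x ∈ U, α g x ∈ U → ∃ T : IG E, ∀ᶠ y in 𝓝 x, φ (α g y) = mo T (φ y)

theorem compl_sub {M : IG E} {D : Set (Sph E)} (hD : IsOpen D)
    (hinv : ∀ y, y ∉ D → mo M y ∉ D) {p : Sph E} (hp : p ∈ D)
    (hlim : ∀ z ∈ D, Tendsto (fun k : ℕ => mo (M ^ k) z) atTop (𝓝 p))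
    {z₁ z₂ : Sph E} (hz₁ : z₁ ∈ D) (hz₂ : z₂ ∈ D) (hz : z₁ ≠ z₂) {y₁ y₂ : Sph E}
    (hy₁ : y₁ ∉ D) (hy₂ : y₂ ∉ D) : y₁ = y₂ := by
  by_contra hne
  obtain ⟨δ, hδ, hδD⟩ := Metric.isOpen_iff.1 hD p hp
  have hpow : ∀ (k : ℕ) (y : Sph E), y ∉ D → mo (M ^ k) y ∉ D := by
    intro k
    induction k with
    | zero => intro y hy; rw [pow_zero, mo_one]; exact hy
    | succ k ih => intro y hy; rw [pow_succ', mo_mul]; exact hinv _ (ih y hy)
  have hfar : ∀ (k : ℕ) (y : Sph E), y ∉ D → δ ≤ dist (mo (M ^ k) y) p := by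
    intro k y hy
    by_contra hc
    exact hpow k y hy (hδD (not_le.1 hc))
  have hzy : ∀ z ∈ D, ∀ y, y ∉ D → ∀ᶠ k : ℕ in atTop,
      cf (M ^ k) z * cf (M ^ k) y ≤ 16 / δ ^ 2 := by
    intro z hz y hy
    filter_upwards [(hlim z hz).eventually (Metric.ball_mem_nhds p (half_pos hδ))] with k hk
    have h1 : dist (mo (M ^ k) z) p < δ / 2 := hk
    have h2 := hfar k y hy
    have h3 : δ / 2 ≤ dist (mo (M ^ k) z) (mo (M ^ k) y) := by
      have := dist_triangle_left (mo (M ^ k) y) p (mo (M ^ k) z)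
      linarith
    have h4 := rel (M ^ k) z y
    have h5 : dist z y ^ 2 ≤ 4 := by
      have := dist_le_two z y
      have h0 : 0 ≤ dist z y := dist_nonneg
      nlinarith
    have h6 : (δ / 2) ^ 2 ≤ dist (mo (M ^ k) z) (mo (M ^ k) y) ^ 2 := by
      have h0 : 0 ≤ δ / 2 := by positivity
      nlinarith
    have h7 : 0 < cf (M ^ k) z * cf (M ^ k) y := mul_pos (cf_pos _ _) (cf_pos _ _)
    rw [le_div_iff₀ (by positivity)]
    have h8 := mul_le_mul_of_nonneg_left h6 h7.le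
    rw [h4] at h8
    nlinarith
  have hd : 0 < dist z₁ z₂ := dist_pos.2 hz
  have he : 0 < dist y₁ y₂ := dist_pos.2 hne
  set B : ℝ := 4 * (16 / δ ^ 2) ^ 2 / dist y₁ y₂ ^ 2 + 1 with hB
  have hB0 : 0 < B := by positivity
  have hP : ∀ᶠ k : ℕ in atTop, B < cf (M ^ k) z₁ * cf (M ^ k) z₂ := by
    have h1 : Tendsto (fun k : ℕ => dist (mo (M ^ k) z₁) (mo (M ^ k) z₂) ^ 2) atTop (𝓝 0) := by
      have := ((hlim z₁ hz₁).dist (hlim z₂ hz₂)).pow 2
      simpa using this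
    have h2 : 0 < dist z₁ z₂ ^ 2 / B := by positivity
    filter_upwards [h1.eventually_lt_const h2] with k hk
    have h3 := rel (M ^ k) z₁ z₂
    have h7 : 0 < cf (M ^ k) z₁ * cf (M ^ k) z₂ := mul_pos (cf_pos _ _) (cf_pos _ _)
    have h8 := mul_lt_mul_of_pos_left hk h7
    rw [h3] at h8
    have h9 : 0 < dist z₁ z₂ ^ 2 := by positivity
    have h10 : cf (M ^ k) z₁ * cf (M ^ k) z₂ * (dist z₁ z₂ ^ 2 / B) =
        (cf (M ^ k) z₁ * cf (M ^ k) z₂) / B * dist z₁ z₂ ^ 2 := by ring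
    rw [h10] at h8
    have h11 : 1 < (cf (M ^ k) z₁ * cf (M ^ k) z₂) / B := by
      by_contra hc
      have := mul_le_mul_of_nonneg_right (not_lt.1 hc) h9.le
      linarith
    rwa [lt_div_iff₀ hB0, one_mul] at h11
  obtain ⟨k, ⟨hk1, hk2⟩, hk3⟩ :=
    (((hzy z₁ hz₁ y₁ hy₁).and (hzy z₂ hz₂ y₂ hy₂)).and hP).exists
  have a1 := cf_pos (M ^ k) z₁
  have a2 := cf_pos (M ^ k) z₂
  have b1 := cf_pos (M ^ k) y₁
  have b2 := cf_pos (M ^ k) y₂
  have h4 := rel (M ^ k) y₁ y₂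
  have h5 : dist (mo (M ^ k) y₁) (mo (M ^ k) y₂) ^ 2 ≤ 4 := by
    have := dist_le_two (mo (M ^ k) y₁) (mo (M ^ k) y₂)
    have h0 : 0 ≤ dist (mo (M ^ k) y₁) (mo (M ^ k) y₂) := dist_nonneg
    nlinarith
  have h6 : dist y₁ y₂ ^ 2 / 4 ≤ cf (M ^ k) y₁ * cf (M ^ k) y₂ := by
    have := mul_le_mul_of_nonneg_left h5 (mul_pos b1 b2).le
    rw [h4] at this
    linarith
  have h7 : (cf (M ^ k) z₁ * cf (M ^ k) y₁) * (cf (M ^ k) z₂ * cf (M ^ k) y₂) ≤
      (16 / δ ^ 2) * (16 / δ ^ 2) :=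
    mul_le_mul hk1 hk2 (mul_pos a2 b2).le (by positivity)
  have h8 : B * (dist y₁ y₂ ^ 2 / 4) ≤
      (cf (M ^ k) z₁ * cf (M ^ k) z₂) * (cf (M ^ k) y₁ * cf (M ^ k) y₂) :=
    mul_le_mul hk3.le h6 (by positivity) (mul_pos a1 a2).le
  have h9 : B * (dist y₁ y₂ ^ 2 / 4) = (16 / δ ^ 2) ^ 2 + dist y₁ y₂ ^ 2 / 4 := by
    rw [hB]
    field_simp
  have h10 : 0 < dist y₁ y₂ ^ 2 / 4 := by positivity
  nlinarith

theorem develop' [FiniteDimensional ℝ E] (hperf : Perf (Sph E)) {G : Type} [Group G]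
    {α : G →* (Sph E ≃ₜ Sph E)} {U V : Set (Sph E)} (hU : IsOpen U) {φ : Sph E → Sph E}
    (hφ : IsChart φ U) {h : G} {p q : Sph E} (hVU : V ⊆ U) (hL : Lox α h V p q)
    (M : IG E) (hM : ∀ᶠ y in 𝓝 p, φ (α h y) = mo M (φ y)) :
    ∃ f : Sph E ≃ₜ Sph E, ∀ x, x ≠ q → ∃ k₀ : ℕ, ∀ k, k₀ ≤ k → ∀ᶠ x' in 𝓝 x,
      α (h ^ k) x' ∈ U ∧ f x' = mo (M⁻¹ ^ k) (φ (α (h ^ k) x')) := by
  have : ProperSpace E := FiniteDimensional.proper ℝ E
  have hcS : CompactSpace (Sph E) := isCompact_iff_compactSpace.1 (isCompact_sphere (0 : E) 1)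
  set N : Set (Sph E) := {y | φ (α h y) = mo M (φ y)} ∩ U with hN
  have hNp : N ∈ 𝓝 p := inter_mem hM (hU.mem_nhds (hVU hL.p_mem))
  obtain ⟨m, hm⟩ := hL.contr N hNp
  set F : ℕ → Sph E → Sph E := fun k x => mo (M⁻¹ ^ k) (φ (α (h ^ k) x)) with hF
  have hstep : ∀ (k : ℕ) (x : Sph E), α (h ^ k) x ∈ N → F (k + 1) x = F k x := by
    intro k x hx
    simp only [hF]
    rw [pow_succ' h k, amul, hx.1, pow_succ, mo_mul, mo_inv_mo]
  have hNk : ∀ (j : ℕ) (x : Sph E), α (h ^ j) x ∈ V → ∀ k, j + m ≤ k → α (h ^ k) x ∈ N := by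
    intro j x hx k hk
    obtain ⟨i, rfl⟩ := Nat.exists_eq_add_of_le hk
    have e : j + m + i = (m + i) + j := by ring
    rw [e, pow_add, amul]
    exact hm _ (Nat.le_add_right _ _) _ hx
  have hconst : ∀ (j : ℕ) (x : Sph E), α (h ^ j) x ∈ V → ∀ k, j + m ≤ k → F k x = F (j + m) x := by
    intro j x hx k hk
    induction k, hk using Nat.le_induction with
    | base => rfl
    | succ k hk ih => rw [hstep k x (hNk j x hx k hk), ih]
  classical
  set f₀ : Sph E → Sph E := fun x => if hx : x = q then q else F ((hL.ent x hx).choose + m) x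
    with hf₀
  have hf0 : ∀ (j : ℕ) (x : Sph E), x ≠ q → α (h ^ j) x ∈ V → ∀ k, j + m ≤ k → f₀ x = F k x := by
    intro j x hxq hx k hk
    simp only [hf₀, dif_neg hxq]
    set j' := (hL.ent x hxq).choose
    have hj' : α (h ^ j') x ∈ V := (hL.ent x hxq).choose_spec
    have e1 := hconst j' x hj' (max (j' + m) k) (le_max_left _ _)
    have e2 := hconst j x hx (max (j' + m) k) (hk.trans (le_max_right _ _))
    have e3 := hconst j x hx k hk
    rw [← e1, e2, e3]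
  have hqk : ∀ k : ℕ, α (h ^ k) q = q := by
    intro k
    induction k with
    | zero => rw [pow_zero, aone]
    | succ k ih => rw [pow_succ, amul, hL.fix_q, ih]
  have hpk : ∀ k : ℕ, α (h ^ k) p = p := by
    intro k
    induction k with
    | zero => rw [pow_zero, aone]
    | succ k ih => rw [pow_succ, amul, hL.fix_p, ih]
  have hloc : ∀ x, x ≠ q → ∃ k₀ : ℕ, ∀ k, k₀ ≤ k → ∀ᶠ x' in 𝓝 x,
      x' ≠ q ∧ α (h ^ k) x' ∈ N ∧ f₀ x' = F k x' := by
    intro x hx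
    obtain ⟨j, hj⟩ := hL.ent x hx
    refine ⟨j + m, fun k hk => ?_⟩
    have h1 : ∀ᶠ x' in 𝓝 x, α (h ^ j) x' ∈ V :=
      (hL.isOpen.preimage (α (h ^ j)).continuous).mem_nhds hj
    filter_upwards [h1] with x' hx'
    have hne : x' ≠ q := by
      rintro rfl
      rw [hqk] at hx'
      exact hL.q_notMem hx'
    exact ⟨hne, hNk j x' hx' k hk, hf0 j x' hne hx' k hk⟩
  have hcont : ∀ x, x ≠ q → ContinuousAt f₀ x := by
    intro x hx
    obtain ⟨k, hk⟩ := hloc x hx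
    have h1 := hk k le_rfl
    have h2 : F k =ᶠ[𝓝 x] f₀ := by
      filter_upwards [h1] with x' hx'
      exact hx'.2.2.symm
    refine ContinuousAt.congr ?_ h2
    have h3 := h1.self_of_nhds.2.1
    have h4 : ContinuousAt φ (α (h ^ k) x) := hφ.cont.continuousAt (hU.mem_nhds h3.2)
    have h5 : ContinuousAt (fun x => φ (α (h ^ k) x)) x :=
      ContinuousAt.comp (f := fun x => α (h ^ k) x) (g := φ) h4 (α (h ^ k)).continuous.continuousAt
    exact ContinuousAt.comp (g := mo (M⁻¹ ^ k)) (continuous_mo _).continuousAt h5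
  have hinj : ∀ x y, x ≠ q → y ≠ q → f₀ x = f₀ y → x = y := by
    intro x y hx hy hxy
    obtain ⟨k₁, hk₁⟩ := hloc x hx
    obtain ⟨k₂, hk₂⟩ := hloc y hy
    have h1 := (hk₁ (max k₁ k₂) (le_max_left _ _)).self_of_nhds
    have h2 := (hk₂ (max k₁ k₂) (le_max_right _ _)).self_of_nhds
    rw [h1.2.2, h2.2.2] at hxy
    have h3 : φ (α (h ^ (max k₁ k₂)) x) = φ (α (h ^ (max k₁ k₂)) y) :=
      (moH (M⁻¹ ^ (max k₁ k₂))).injective hxy
    have h4 := hφ.inj h1.2.1.2 h2.2.1.2 h3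
    exact (α (h ^ (max k₁ k₂))).injective h4
  have hopen : ∀ x, x ≠ q → ∀ O ∈ 𝓝 x, f₀ '' (O ∩ {q}ᶜ) ∈ 𝓝 (f₀ x) := by
    intro x hx O hO
    obtain ⟨k, hk⟩ := hloc x hx
    have h1 := hk k le_rfl
    obtain ⟨O', hO', hO'o, hxO'⟩ := mem_nhds_iff.1 (inter_mem hO h1)
    have h2 : IsOpen (φ '' (α (h ^ k) '' O')) := by
      refine hφ.isOpen_image _ ?_ ((α (h ^ k)).isOpenMap O' hO'o)
      rintro _ ⟨x', hx', rfl⟩
      exact (hO' hx').2.2.1.2
    have h3 : IsOpen (moH (M⁻¹ ^ k) '' (φ '' (α (h ^ k) '' O'))) := (moH _).isOpenMap _ h2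
    refine mem_of_superset (h3.mem_nhds ?_) ?_
    · refine ⟨_, ⟨_, ⟨x, hxO', rfl⟩, rfl⟩, ?_⟩
      exact (hO' hxO').2.2.2.symm
    · rintro _ ⟨_, ⟨_, ⟨x', hx', rfl⟩, rfl⟩, rfl⟩
      refine ⟨x', ⟨(hO' hx').1, (hO' hx').2.1⟩, ?_⟩
      exact (hO' hx').2.2.2
  set D : Set (Sph E) := f₀ '' {q}ᶜ with hD
  have hDo : IsOpen D := by
    rw [isOpen_iff_mem_nhds]
    rintro _ ⟨x, hx, rfl⟩
    refine mem_of_superset (hopen x hx univ univ_mem) ?_
    rintro _ ⟨x', hx', rfl⟩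
    exact ⟨x', hx'.2, rfl⟩
  have hequi : ∀ x, x ≠ q → f₀ (α h x) = mo M (f₀ x) := by
    intro x hx
    have hx' : α h x ≠ q := by
      intro hc
      apply hx
      apply (α h).injective
      rw [hc, hL.fix_q]
    obtain ⟨k₁, hk₁⟩ := hloc x hx
    obtain ⟨k₂, hk₂⟩ := hloc _ hx'
    have h1 := (hk₁ (max k₁ k₂ + 1) ((le_max_left _ _).trans (Nat.le_succ _))).self_of_nhds
    have h2 := (hk₂ (max k₁ k₂) (le_max_right _ _)).self_of_nhds
    rw [h1.2.2, h2.2.2]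
    simp only [hF]
    rw [pow_succ' (M⁻¹), mo_mul, mo_mo_inv, pow_succ h, amul]
  have hinvD : ∀ y, y ∉ D → mo M y ∉ D := by
    rintro y hy ⟨x, hx, hxy⟩
    apply hy
    have hx' : α h⁻¹ x ≠ q := by
      intro hc
      apply hx
      have := congrArg (α h) hc
      rwa [ainv', hL.fix_q] at this
    refine ⟨α h⁻¹ x, hx', ?_⟩
    have h1 := hequi _ hx'
    rw [ainv', hxy] at h1
    exact ((moH M).injective h1).symm
  have hpq : p ≠ q := fun hc => hL.q_notMem (hc ▸ hL.p_mem)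
  have hlim : ∀ z ∈ D, Tendsto (fun k : ℕ => mo (M ^ k) z) atTop (𝓝 (φ p)) := by
    rintro _ ⟨x, hx, rfl⟩
    obtain ⟨j, hj⟩ := hL.ent x hx
    have h1 : Tendsto (fun k : ℕ => α (h ^ k) x) atTop (𝓝 p) := by
      intro W hW
      obtain ⟨m', hm'⟩ := hL.contr W hW
      rw [Filter.mem_map]
      filter_upwards [eventually_ge_atTop (j + m')] with k hk
      obtain ⟨i, rfl⟩ := Nat.exists_eq_add_of_le hk
      have e : j + m' + i = (m' + i) + j := by ring
      change α (h ^ (j + m' + i)) x ∈ W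
      rw [e, pow_add, amul]
      exact hm' _ (Nat.le_add_right _ _) _ hj
    have h2 : ContinuousAt φ p := hφ.cont.continuousAt (hU.mem_nhds (hVU hL.p_mem))
    have h3 := h2.tendsto.comp h1
    refine h3.congr' ?_
    filter_upwards [eventually_ge_atTop (j + m)] with k hk
    rw [hf0 j x hx hj k hk]
    simp only [hF, Function.comp]
    rw [← mo_mul, inv_pow, mul_inv_cancel, mo_one]
  have hφp : φ p ∈ D := by
    refine ⟨p, hpq, ?_⟩
    have h1 : mo M (φ p) = φ p := by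
      have := hM.self_of_nhds
      rw [hL.fix_p] at this
      exact this.symm
    have h2 : mo M⁻¹ (φ p) = φ p := by
      conv_lhs => rw [← h1]
      exact mo_inv_mo M _
    have h3 : ∀ k : ℕ, mo (M⁻¹ ^ k) (φ p) = φ p := by
      intro k
      induction k with
      | zero => rw [pow_zero, mo_one]
      | succ k ih => rw [pow_succ, mo_mul, h2, ih]
    rw [hf0 0 p hpq (by rw [pow_zero, aone]; exact hL.p_mem) (0 + m) le_rfl]
    simp only [hF]
    rw [hpk, h3]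
  -- the inverse
  set g : Sph E → Sph E := fun y => if hy : y ∈ D then hy.choose else q with hg
  have hgD : ∀ y (hy : y ∈ D), g y ≠ q ∧ f₀ (g y) = y := by
    intro y hy
    simp only [hg, dif_pos hy]
    exact hy.choose_spec
  have hgf : ∀ x, x ≠ q → g (f₀ x) = x := by
    intro x hx
    have h1 := hgD (f₀ x) ⟨x, hx, rfl⟩
    exact hinj _ _ h1.1 hx h1.2
  have hgc : ∀ y ∈ D, ContinuousAt g y := by
    intro y hy O hO
    have h1 := hgD y hy
    have h2 := hopen (g y) h1.1 O hO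
    rw [h1.2] at h2
    rw [Filter.mem_map]
    refine mem_of_superset h2 ?_
    rintro _ ⟨x, hx, rfl⟩
    change g (f₀ x) ∈ O
    rw [hgf x hx.2]
    exact hx.1
  have hDne : ∃ q', q' ∉ D := by
    by_contra hcon
    push Not at hcon
    have hgcont : Continuous g := continuous_iff_continuousAt.2 fun y => hgc y (hcon y)
    have h1 : range g = {q}ᶜ := by
      ext x
      constructor
      · rintro ⟨y, rfl⟩
        exact (hgD y (hcon y)).1
      · intro hx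
        exact ⟨f₀ x, hgf x hx⟩
    have h2 : IsClosed (range g) := (isCompact_range hgcont).isClosed
    rw [h1] at h2
    have h3 : IsOpen ({q} : Set (Sph E)) := by
      have := h2.isOpen_compl
      rwa [compl_compl] at this
    obtain ⟨r, hr, hrq⟩ := Metric.isOpen_iff.1 h3 q rfl
    obtain ⟨y, hy, hyr⟩ := hperf q r hr
    exact hy (hrq hyr)
  obtain ⟨q', hq'⟩ := hDne
  have hz : ∃ z₁ ∈ D, ∃ z₂ ∈ D, z₁ ≠ z₂ := by
    obtain ⟨y, hy, hyq, -⟩ := near_off hperf p q one_pos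
    refine ⟨f₀ p, ⟨p, hpq, rfl⟩, f₀ y, ⟨y, hyq, rfl⟩, fun hc => ?_⟩
    exact hy (hinj _ _ hpq hyq hc).symm
  obtain ⟨z₁, hz₁, z₂, hz₂, hzz⟩ := hz
  have hDq : ∀ y, y ≠ q' → y ∈ D := by
    intro y hy
    by_contra hyD
    exact hy (compl_sub hDo hinvD hφp hlim hz₁ hz₂ hzz hyD hq')
  set f₁ : Sph E → Sph E := fun x => if x = q then q' else f₀ x with hf₁
  have hf1 : ∀ x, x ≠ q → f₁ x = f₀ x := fun x hx => by simp [hf₁, hx]
  have hf1q : f₁ q = q' := by simp [hf₁]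
  have hcont1 : Continuous f₁ := by
    rw [continuous_iff_continuousAt]
    intro x
    by_cases hx : x = q
    · subst hx
      intro O hO
      rw [hf1q] at hO
      obtain ⟨O', hO', hO'o, hq'O'⟩ := mem_nhds_iff.1 hO
      have hK : IsCompact (O'ᶜ) := hO'o.isClosed_compl.isCompact
      have hKD : ∀ y ∈ O'ᶜ, y ∈ D := fun y hy => hDq y (fun hc => hy (hc ▸ hq'O'))
      have hgK : IsCompact (g '' O'ᶜ) :=
        hK.image_of_continuousOn fun y hy => (hgc y (hKD y hy)).continuousWithinAt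
      have hqK : x ∉ g '' O'ᶜ := by
        rintro ⟨y, hy, hyx⟩
        exact (hgD y (hKD y hy)).1 hyx
      rw [Filter.mem_map]
      refine mem_of_superset (hgK.isClosed.isOpen_compl.mem_nhds hqK) ?_
      intro x' hx'
      change f₁ x' ∈ O
      apply hO'
      by_cases hx'q : x' = x
      · rw [hx'q, hf1q]; exact hq'O'
      · rw [hf1 x' hx'q]
        by_contra hc
        exact hx' ⟨f₀ x', hc, hgf x' hx'q⟩
    · refine (hcont x hx).congr ?_
      filter_upwards [isOpen_ne.mem_nhds hx] with x' hx'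
      exact (hf1 x' hx').symm
  have hbij : Function.Bijective f₁ := by
    constructor
    · intro x y hxy
      by_cases hx : x = q
      · by_cases hy : y = q
        · rw [hx, hy]
        · exfalso
          rw [hx, hf1q, hf1 y hy] at hxy
          exact hq' ⟨y, hy, hxy.symm⟩
      · by_cases hy : y = q
        · exfalso
          rw [hy, hf1q, hf1 x hx] at hxy
          exact hq' ⟨x, hx, hxy⟩
        · rw [hf1 x hx, hf1 y hy] at hxy
          exact hinj x y hx hy hxy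
    · intro y
      by_cases hy : y = q'
      · exact ⟨q, by rw [hf1q, hy]⟩
      · obtain ⟨x, hx, hxy⟩ := hDq y hy
        exact ⟨x, by rw [hf1 x hx, hxy]⟩
  set e : Sph E ≃ Sph E := Equiv.ofBijective f₁ hbij with he
  have hec : Continuous e := hcont1
  refine ⟨hec.homeoOfEquivCompactToT2, fun x hx => ?_⟩
  obtain ⟨k₀, hk₀⟩ := hloc x hx
  refine ⟨k₀, fun k hk => ?_⟩
  filter_upwards [hk₀ k hk] with x' hx'
  refine ⟨hx'.2.1.2, ?_⟩
  change f₁ x' = _
  rw [hf1 x' hx'.1, hx'.2.2]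

theorem develop [FiniteDimensional ℝ E] (hperf : Perf (Sph E)) {G : Type} [Group G]
    {α : G →* (Sph E ≃ₜ Sph E)} {U V : Set (Sph E)} (hU : IsOpen U) {φ : Sph E → Sph E}
    (hφ : IsChart φ U) {h : G} {p q : Sph E} (hVU : V ⊆ U) (hL : Lox α h V p q)
    (hh : LMat α φ U h) :
    ∃ (f : Sph E ≃ₜ Sph E) (M : IG E), ∀ x, x ≠ q → ∃ k₀ : ℕ, ∀ k, k₀ ≤ k → ∀ᶠ x' in 𝓝 x,
      α (h ^ k) x' ∈ U ∧ f x' = mo (M⁻¹ ^ k) (φ (α (h ^ k) x')) := by
  obtain ⟨M, hM⟩ := hh p (hVU hL.p_mem) (by rw [hL.fix_p]; exact hVU hL.p_mem)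
  obtain ⟨f, hf⟩ := develop' hperf hU hφ hVU hL M hM
  exact ⟨f, M, hf⟩

end Pool.Agent.TH311.LM
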