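import Pool.Agent.TH311.LM.L3

/-!
# The representation attached to a locally Moebius chart
-/

set_option autoImplicit false

open Filter Topology Set
open Pool.Agent.TH289.C

namespace Pool.Agent.TH311.LM

variable {E : Type} [NormedAddCommGroup E] [InnerProductSpace ℝ E]

theorem perf_sph [FiniteDimensional ℝ E] (hE : 2 ≤ Module.finrank ℝ E) : Perf (Sph E) := by
  intro ξ r hr
  obtain ⟨w, hw, hxw⟩ := exists_orth hE ξ
  obtain ⟨θ, hθ, hθ2, ha, -⟩ := circ_small (Metric.ball_mem_nhds ξ hr) w hw hxw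
  refine ⟨circ ξ w hw hxw θ, ?_, ha⟩
  intro hc
  have hs : 0 < Real.sin θ := Real.sin_pos_of_pos_of_lt_pi hθ (by linarith [Real.pi_pos])
  have h1 : inner ℝ ((circ ξ w hw hxw θ : Sph E) : E) w = Real.sin θ := by
    change inner ℝ (Real.cos θ • (ξ : E) + Real.sin θ • w) w = _
    rw [inner_add_left, inner_smul_left, inner_smul_left, hxw, real_inner_self_eq_norm_sq, hw]
    simp
  rw [hc, hxw] at h1
  linarith

/-- The sphere minus two points is connected. -/
theorem preconn [FiniteDimensional ℝ E] (hE : 3 ≤ Module.finrank ℝ E) (a b : Sph E) :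
    IsPreconnected {x : Sph E | x ≠ a ∧ x ≠ b} := by
  have ha := norm_coe a
  set s := stereographic ha with hs
  have hsrc : s.source = {a}ᶜ := by
    rw [hs, stereographic_source]
  have htgt : s.target = univ := stereographic_target ha
  have h1 := Submodule.finrank_add_finrank_orthogonal (Submodule.span ℝ {(a : E)})
  have h2 : Module.finrank ℝ (Submodule.span ℝ {(a : E)}) ≤ 1 := by
    have := finrank_span_le_card (R := ℝ) ({(a : E)} : Set E)
    simpa using this
  have h3 : 1 < Module.finrank ℝ (Submodule.span ℝ {(a : E)})ᗮ := by omega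
  have h4 : 1 < Module.rank ℝ (Submodule.span ℝ {(a : E)})ᗮ := by
    rw [← Module.finrank_eq_rank]
    exact_mod_cast h3
  have hc : ContinuousOn s.symm univ := by
    have := s.continuousOn_symm
    rwa [htgt] at this
  have hmem : ∀ y, s.symm y ≠ a := by
    intro y
    have : s.symm y ∈ s.source := s.map_target (by rw [htgt]; exact mem_univ y)
    rw [hsrc] at this
    exact this
  by_cases hab : b = a
  · have h5 : {x : Sph E | x ≠ a ∧ x ≠ b} = s.symm '' univ := by
      ext x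
      constructor
      · rintro ⟨hx, -⟩
        exact ⟨s x, mem_univ _, s.left_inv (by rw [hsrc]; exact hx)⟩
      · rintro ⟨y, -, rfl⟩
        exact ⟨hmem y, hab ▸ hmem y⟩
    rw [h5]
    exact isPreconnected_univ.image _ hc
  · have hbs : b ∈ s.source := by rw [hsrc]; exact hab
    have h5 : {x : Sph E | x ≠ a ∧ x ≠ b} = s.symm '' {s b}ᶜ := by
      ext x
      constructor
      · rintro ⟨hx, hxb⟩
        have hxs : x ∈ s.source := by rw [hsrc]; exact hx
        refine ⟨s x, ?_, s.left_inv hxs⟩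
        intro hc
        exact hxb (s.injOn hxs hbs hc)
      · rintro ⟨y, hy, rfl⟩
        refine ⟨hmem y, ?_⟩
        intro hc
        apply hy
        rw [← hc]
        exact (s.right_inv (by rw [htgt]; exact mem_univ y)).symm
    rw [h5]
    exact (isConnected_compl_singleton_of_one_lt_rank h4 (s b)).isPreconnected.image _
      (hc.mono (subset_univ _))

theorem off_two {X : Type} [MetricSpace X] (hp : Perf X) (x a b : X) {r : ℝ} (hr : 0 < r) :
    ∃ y, (y ≠ a ∧ y ≠ b) ∧ dist y x < r := by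
  have key : ∀ u v w : X, u ≠ v → u ≠ w → v ≠ w → dist u x < r → dist v x < r → dist w x < r →
      ∃ y, (y ≠ a ∧ y ≠ b) ∧ dist y x < r := by
    intro u v w huv huw hvw hu hv hw
    by_cases h1 : u ≠ a ∧ u ≠ b
    · exact ⟨u, h1, hu⟩
    by_cases h2 : v ≠ a ∧ v ≠ b
    · exact ⟨v, h2, hv⟩
    refine ⟨w, ?_, hw⟩
    rw [not_and_or, not_not, not_not] at h1 h2
    rcases h1 with h1 | h1 <;> rcases h2 with h2 | h2
    · exact absurd (h1.trans h2.symm) huv
    · exact ⟨fun h => huw (h1.trans h.symm), fun h => hvw (h2.trans h.symm)⟩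
    · exact ⟨fun h => hvw (h2.trans h.symm), fun h => huw (h1.trans h.symm)⟩
    · exact absurd (h1.trans h2.symm) huv
  obtain ⟨y, hy, hyr⟩ := hp x r hr
  obtain ⟨z, hz, hzr⟩ := hp x (dist y x) (dist_pos.2 hy)
  refine key x y z hy.symm hz.symm ?_ (by simpa using hr) hyr (hzr.trans hyr)
  rintro rfl
  exact lt_irrefl _ hzr

theorem represent [FiniteDimensional ℝ E] (hE : 3 ≤ Module.finrank ℝ E) {G : Type} [Group G]
    {α : G →* (Sph E ≃ₜ Sph E)} {U : Set (Sph E)} {φ : Sph E → Sph E} {h : G} {q : Sph E}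
    (hg : ∀ g, LMat α φ U g) (f : Sph E ≃ₜ Sph E) (M : IG E)
    (hf : ∀ x, x ≠ q → ∃ k₀ : ℕ, ∀ k, k₀ ≤ k → ∀ᶠ x' in 𝓝 x,
      α (h ^ k) x' ∈ U ∧ f x' = mo (M⁻¹ ^ k) (φ (α (h ^ k) x'))) :
    ∃ ρ : G →* IG E, ∀ g x, f (α g x) = mo (ρ g) (f x) := by
  have hE2 : 2 ≤ Module.finrank ℝ E := by omega
  have hperf : Perf (Sph E) := perf_sph hE2
  have hloc : ∀ g x, x ≠ q → α g x ≠ q → ∃ T : IG E, ∀ᶠ x' in 𝓝 x, f (α g x') = mo T (f x') := by
    intro g x hx hgx
    obtain ⟨k₁, hk₁⟩ := hf x hx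
    obtain ⟨k₂, hk₂⟩ := hf _ hgx
    set k := max k₁ k₂
    have h1 := hk₁ k (le_max_left _ _)
    have h2 := hk₂ k (le_max_right _ _)
    have e : ∀ x', α (h ^ k * g * (h ^ k)⁻¹) (α (h ^ k) x') = α (h ^ k) (α g x') := by
      intro x'
      rw [amul, amul, ainv]
    obtain ⟨T, hT⟩ := hg (h ^ k * g * (h ^ k)⁻¹) (α (h ^ k) x) h1.self_of_nhds.1 (by
      rw [e]; exact h2.self_of_nhds.1)
    have h3 := (α (h ^ k)).continuous.continuousAt.eventually hT
    have h4 := (α g).continuous.continuousAt.eventually h2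
    refine ⟨M⁻¹ ^ k * T * (M⁻¹ ^ k)⁻¹, ?_⟩
    filter_upwards [h1, h3, h4] with x' a1 a3 a4
    rw [e] at a3
    rw [a4.2, a3, a1.2, mo_mul, mo_mul, mo_inv_mo]
  have huniq : ∀ (S T : IG E) (x : Sph E), (∀ᶠ x' in 𝓝 x, mo S (f x') = mo T (f x')) → S = T := by
    intro S T x hx
    refine eq_of_agree hE2 (x := f x) ?_
    have h1 := f.symm.continuous.continuousAt (x := f x)
    have h2 : Tendsto f.symm (𝓝 (f x)) (𝓝 x) := by
      have := h1.tendsto
      rwa [f.symm_apply_apply] at this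
    filter_upwards [h2.eventually hx] with y hy
    rwa [f.apply_symm_apply] at hy
  have hglob : ∀ g, ∃ T : IG E, ∀ x, f (α g x) = mo T (f x) := by
    intro g
    set b := α g⁻¹ q
    have hb : ∀ x, x ≠ b → α g x ≠ q := by
      intro x hx hc
      apply hx
      have := congrArg (α g⁻¹) hc
      rwa [ainv] at this
    obtain ⟨x₀, hx₀, -⟩ := off_two hperf q q b one_pos
    obtain ⟨T₀, hT₀⟩ := hloc g x₀ hx₀.1 (hb x₀ hx₀.2)
    refine ⟨T₀, ?_⟩
    set u : Set (Sph E) := {x | ∀ᶠ x' in 𝓝 x, f (α g x') = mo T₀ (f x')} with hu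
    set v : Set (Sph E) := {x | ∃ T, T ≠ T₀ ∧ ∀ᶠ x' in 𝓝 x, f (α g x') = mo T (f x')} with hv
    have huo : IsOpen u := by
      rw [isOpen_iff_mem_nhds]
      intro x hx
      exact eventually_eventually_nhds.2 hx
    have hvo : IsOpen v := by
      rw [isOpen_iff_mem_nhds]
      rintro x ⟨T, hT, hx⟩
      filter_upwards [eventually_eventually_nhds.2 hx] with x' hx'
      exact ⟨T, hT, hx'⟩
    have hdisj : Disjoint u v := by
      rw [Set.disjoint_left]
      rintro x hx ⟨T, hT, hx'⟩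
      apply hT
      apply huniq T T₀ x
      have hx2 : ∀ᶠ x' in 𝓝 x, f (α g x') = mo T₀ (f x') := hx
      filter_upwards [hx2, hx'] with y h1 h2
      rw [← h1, ← h2]
    have hsub : {x : Sph E | x ≠ q ∧ x ≠ b} ⊆ u ∪ v := by
      rintro x ⟨hx, hxb⟩
      obtain ⟨T, hT⟩ := hloc g x hx (hb x hxb)
      by_cases hTT : T = T₀
      · left; rw [hTT] at hT; exact hT
      · right; exact ⟨T, hTT, hT⟩
    have hin : {x : Sph E | x ≠ q ∧ x ≠ b} ⊆ u :=
      (preconn hE q b).subset_left_of_subset_union huo hvo hdisj hsub ⟨x₀, hx₀, hT₀⟩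
    have hcl : IsClosed {x | f (α g x) = mo T₀ (f x)} :=
      isClosed_eq (f.continuous.comp (α g).continuous) ((continuous_mo T₀).comp f.continuous)
    intro x
    have hx : x ∈ closure {x : Sph E | x ≠ q ∧ x ≠ b} := by
      rw [Metric.mem_closure_iff]
      intro ε hε
      obtain ⟨y, hy, hyx⟩ := off_two hperf x q b hε
      exact ⟨y, hy, by rwa [dist_comm]⟩
    have hsub2 : closure {x : Sph E | x ≠ q ∧ x ≠ b} ⊆ {x | f (α g x) = mo T₀ (f x)} :=
      closure_minimal (fun y hy => (hin hy).self_of_nhds) hcl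
    exact hsub2 hx
  choose T hT using hglob
  have huniq2 : ∀ S S' : IG E, (∀ x, mo S (f x) = mo S' (f x)) → S = S' := fun S S' hx =>
    huniq S S' q (Eventually.of_forall hx)
  refine ⟨{ toFun := T, map_one' := ?_, map_mul' := ?_ }, hT⟩
  · refine huniq2 _ _ fun x => ?_
    rw [← hT, aone, mo_one]
  · intro g g'
    refine huniq2 _ _ fun x => ?_
    rw [← hT, amul, hT, hT, mo_mul]

end Pool.Agent.TH311.LM
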