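import Pool.Agent.TH311.LM.L4

/-!
# Moebius actions that are uniform convergence actions are cocompact on hyperbolic space
-/

set_option autoImplicit false

open Filter Topology Set
open Pool.Agent.TH289.C

namespace Pool.Agent.TH311.LM

variable {E : Type} [NormedAddCommGroup E] [InnerProductSpace ℝ E]

/-- The bilinear form as a continuous linear map of the first variable. -/
noncomputable def bfl (u : ℝ × E) : (ℝ × E) →L[ℝ] ℝ :=
  u.1 • ContinuousLinearMap.fst ℝ ℝ E - (innerSL ℝ u.2).comp (ContinuousLinearMap.snd ℝ ℝ E)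

theorem bfl_apply (u w : ℝ × E) : bfl u w = bf w u := by
  unfold bfl bf
  simp [real_inner_comm, mul_comm]

/-- The reflection in the vector `u`. -/
noncomputable def reflL (u : ℝ × E) : (ℝ × E) →L[ℝ] (ℝ × E) :=
  ContinuousLinearMap.id ℝ (ℝ × E) - (2 / qf u) • (bfl u).smulRight u

theorem reflL_apply (u w : ℝ × E) : reflL u w = w - (2 * bf w u / qf u) • u := by
  unfold reflL
  simp only [ContinuousLinearMap.sub_apply, ContinuousLinearMap.id_apply,
    ContinuousLinearMap.smul_apply, ContinuousLinearMap.smulRight_apply, bfl_apply, smul_smul]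
  congr 2
  ring

theorem bf_self (u : ℝ × E) : bf u u = qf u := by
  unfold bf qf
  rw [real_inner_self_eq_norm_sq]
  ring

theorem bf_sub_smul (w u z : ℝ × E) (c : ℝ) : bf (w - c • u) z = bf w z - c * bf u z := by
  unfold bf
  simp only [Prod.fst_sub, Prod.snd_sub, Prod.smul_fst, Prod.smul_snd, smul_eq_mul,
    inner_sub_left, inner_smul_left]
  simp
  ring

theorem qf_sub_smul (w u : ℝ × E) (c : ℝ) :
    qf (w - c • u) = qf w - 2 * c * bf w u + c ^ 2 * qf u := by
  rw [← bf_self, ← bf_self, ← bf_self, bf_sub_smul]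
  have hcomm : ∀ a b : ℝ × E, bf a b = bf b a := by
    intro a b
    unfold bf
    rw [real_inner_comm, mul_comm]
  rw [hcomm w (w - c • u), hcomm u (w - c • u), bf_sub_smul, bf_sub_smul, hcomm u w]
  ring

theorem reflL_reflL {u : ℝ × E} (hu : qf u ≠ 0) (w : ℝ × E) : reflL u (reflL u w) = w := by
  rw [reflL_apply, reflL_apply, bf_sub_smul, bf_self]
  have : 2 * (bf w u - 2 * bf w u / qf u * qf u) / qf u = -(2 * bf w u / qf u) := by
    field_simp
    ring
  rw [this]
  module

/-- Isometries act transitively on hyperbolic space. -/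
theorem exists_move (v : ℝ × E) (hv : v ∈ Hyp E) :
    ∃ T : IG E, (T : (ℝ × E) ≃L[ℝ] (ℝ × E)) (1, 0) = v := by
  by_cases h1 : v = (1, 0)
  · exact ⟨1, h1.symm⟩
  set u : ℝ × E := v - (1, 0) with hu
  have hq : qf v = 1 := hv.1
  have hv1 : 0 < v.1 := hv.2
  have hqu : qf u = 2 - 2 * v.1 := by
    have e : qf u = qf v - 2 * v.1 + 1 := by
      unfold qf
      rw [hu]
      simp
      ring
    rw [e, hq]
    ring
  have hv1' : v.1 ≠ 1 := by
    intro hc
    apply h1
    have : ‖v.2‖ ^ 2 = 0 := by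
      unfold qf at hq
      rw [hc] at hq
      linarith
    have h2 : v.2 = 0 := by
      have := pow_eq_zero_iff (two_ne_zero) |>.1 this
      exact norm_eq_zero.1 this
    exact Prod.ext hc h2
  have hqu0 : qf u ≠ 0 := by
    rw [hqu]
    intro hc
    apply hv1'
    linarith
  set T : (ℝ × E) ≃L[ℝ] (ℝ × E) :=
    ContinuousLinearEquiv.equivOfInverse (reflL u) (reflL u) (reflL_reflL hqu0) (reflL_reflL hqu0)
    with hT
  have hTv : ∀ w, T w = reflL u w := fun w => rfl
  have hTe : T (1, 0) = v := by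
    rw [hTv, reflL_apply]
    have h2 : bf ((1 : ℝ), (0 : E)) u = v.1 - 1 := by
      unfold bf
      rw [hu]
      simp
    rw [h2, hqu]
    have h3 : 2 * (v.1 - 1) / (2 - 2 * v.1) = -1 := by
      rw [hqu] at hqu0
      rw [div_eq_iff hqu0]
      ring
    rw [h3, hu]
    module
  have hiso : IsIso T := by
    refine ⟨fun w => ?_, ?_⟩
    · rw [hTv, reflL_apply, qf_sub_smul]
      field_simp
      ring
    · rw [hTe]
      exact hv1
  exact ⟨⟨T, hiso⟩, hTe⟩

/-- Three equidistant points on a great circle. -/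
theorem exists_star [FiniteDimensional ℝ E] (hE : 2 ≤ Module.finrank ℝ E) :
    ∃ s : Fin 3 → Sph E, (s 0 : E) + s 1 + s 2 = 0 ∧ ∀ i j, i ≠ j → dist (s i) (s j) ^ 2 = 3 := by
  obtain ⟨y, hy⟩ : ∃ y : E, y ≠ 0 := by
    have : Nontrivial E := Module.nontrivial_of_finrank_pos (R := ℝ) (by omega)
    exact exists_ne 0
  have hn := norm_pos_iff.2 hy
  obtain ⟨a⟩ : Nonempty (Sph E) := ⟨⟨‖y‖⁻¹ • y, by
    rw [mem_sphere_zero_iff_norm, norm_smul, norm_inv, norm_norm, inv_mul_cancel₀ hn.ne']⟩⟩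
  obtain ⟨w, hw, haw⟩ := exists_orth hE a
  have hc3 : Real.cos (2 * Real.pi / 3) = -(1 / 2) := by
    have : 2 * Real.pi / 3 = Real.pi - Real.pi / 3 := by ring
    rw [this, Real.cos_pi_sub, Real.cos_pi_div_three]
  have hs3 : Real.sin (2 * Real.pi / 3) ^ 2 = 3 / 4 := by
    have := Real.cos_sq_add_sin_sq (2 * Real.pi / 3)
    rw [hc3] at this
    linarith
  set b := circ a w hw haw (2 * Real.pi / 3) with hb
  set c := circ a w hw haw (-(2 * Real.pi / 3)) with hc
  have ea : ‖(a : E)‖ = 1 := norm_coe a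
  have hbE : (b : E) = (-(1 / 2) : ℝ) • (a : E) + Real.sin (2 * Real.pi / 3) • w := by
    rw [← hc3]; rfl
  have hcE : (c : E) = (-(1 / 2) : ℝ) • (a : E) - Real.sin (2 * Real.pi / 3) • w := by
    have h1 : (c : E) = Real.cos (-(2 * Real.pi / 3)) • (a : E) +
        Real.sin (-(2 * Real.pi / 3)) • w := rfl
    rw [h1, Real.cos_neg, Real.sin_neg, hc3]
    module
  have hd : ∀ x z : Sph E, dist x z ^ 2 = 2 - 2 * inner ℝ (x : E) (z : E) := by
    intro x z
    have h := bf_light x z
    unfold bf at h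
    simp only [one_mul] at h
    linarith
  have h01 : dist a b ^ 2 = 3 := by
    rw [hd, hbE, inner_add_right, inner_smul_right, inner_smul_right, haw,
      real_inner_self_eq_norm_sq, ea]
    norm_num
  have h02 : dist a c ^ 2 = 3 := by
    rw [hd, hcE, inner_sub_right, inner_smul_right, inner_smul_right, haw,
      real_inner_self_eq_norm_sq, ea]
    norm_num
  have h12 : dist b c ^ 2 = 3 := by
    rw [hd, hbE, hcE, inner_add_left, inner_sub_right, inner_sub_right]
    simp only [inner_smul_left, inner_smul_right, haw, real_inner_comm (a : E) w,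
      real_inner_self_eq_norm_sq, ea, hw]
    simp
    nlinarith
  refine ⟨![a, b, c], ?_, ?_⟩
  · simp only [Matrix.cons_val_zero, Matrix.cons_val_one, Matrix.cons_val]
    rw [hbE, hcE]
    module
  · intro i j hij
    fin_cases i <;> fin_cases j <;> simp at hij ⊢
    · exact h01
    · exact h02
    · rw [dist_comm]; exact h01
    · exact h12
    · rw [dist_comm]; exact h02
    · rw [dist_comm]; exact h12

theorem cocompact [FiniteDimensional ℝ E] (hE : 2 ≤ Module.finrank ℝ E) {G : Type} [Group G]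
    {α : G →* (Sph E ≃ₜ Sph E)} (hco : CocompactOnTriples α) (f : Sph E ≃ₜ Sph E)
    (ρ : G →* IG E) (hρ : ∀ g x, f (α g x) = mo (ρ g) (f x)) :
    ∃ K ⊆ Hyp E, IsCompact K ∧ ∀ v ∈ Hyp E, ∃ g,
      ((ρ g : IG E) : (ℝ × E) ≃L[ℝ] (ℝ × E)) v ∈ K := by
  have : ProperSpace E := FiniteDimensional.proper ℝ E
  have hcS : CompactSpace (Sph E) := isCompact_iff_compactSpace.1 (isCompact_sphere (0 : E) 1)
  obtain ⟨ε, hε, hco⟩ := hco
  have huc : UniformContinuous f.symm :=
    CompactSpace.uniformContinuous_of_continuous f.symm.continuous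
  obtain ⟨δ, hδ, hδ'⟩ := Metric.uniformContinuous_iff.1 huc ε hε
  have hsep : ∀ x y, ε ≤ dist x y → δ ≤ dist (f x) (f y) := by
    intro x y hxy
    by_contra hc
    have := hδ' (not_le.1 hc)
    rw [f.symm_apply_apply, f.symm_apply_apply] at this
    linarith
  obtain ⟨s, hs0, hs⟩ := exists_star hE
  set R : ℝ := 4 / δ ^ 2 with hR
  have hR0 : 0 < R := by positivity
  set K : Set (ℝ × E) := {v | v ∈ Hyp E ∧ v.1 ≤ R} with hK
  have hKc : IsCompact K := by
    refine Metric.isCompact_of_isClosed_isBounded ?_ ?_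
    · have h1 : K = {v : ℝ × E | qf v = 1 ∧ 0 ≤ v.1 ∧ v.1 ≤ R} := by
        ext v
        constructor
        · rintro ⟨⟨h1, h2⟩, h3⟩
          exact ⟨h1, h2.le, h3⟩
        · rintro ⟨h1, h2, h3⟩
          refine ⟨⟨h1, lt_of_le_of_ne h2 ?_⟩, h3⟩
          intro h0
          unfold qf at h1
          rw [← h0] at h1
          nlinarith [sq_nonneg ‖v.2‖]
      rw [h1]
      have hqc : Continuous (qf : ℝ × E → ℝ) := by
        unfold qf; fun_prop
      exact (isClosed_eq hqc continuous_const).inter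
        ((isClosed_le continuous_const continuous_fst).inter
          (isClosed_le continuous_fst continuous_const))
    · rw [isBounded_iff_forall_norm_le]
      refine ⟨R, ?_⟩
      rintro v ⟨⟨h1, h2⟩, h3⟩
      unfold qf at h1
      have h4 : ‖v.2‖ ≤ v.1 := by
        have := norm_nonneg v.2
        nlinarith
      rw [Prod.norm_def]
      refine max_le ?_ (h4.trans h3)
      rw [Real.norm_of_nonneg h2.le]
      exact h3
  refine ⟨K, fun v hv => hv.1, hKc, fun v hv => ?_⟩
  obtain ⟨T, hT⟩ := exists_move v hv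
  set t : Fin 3 → Sph E := fun i => f.symm (mo T (s i)) with ht
  have hsne : ∀ i j, i ≠ j → s i ≠ s j := by
    intro i j hij hc
    have := hs i j hij
    rw [hc, dist_self] at this
    norm_num at this
  have htne : ∀ i j, i ≠ j → t i ≠ t j := by
    intro i j hij hc
    exact hsne i j hij ((moH T).injective (f.symm.injective hc))
  obtain ⟨g, h1, h2, h3⟩ := hco (t 0) (t 1) (t 2) (htne 0 1 (by decide)) (htne 1 2 (by decide))
    (htne 0 2 (by decide))
  refine ⟨g, ?_⟩
  set S : IG E := ρ g * T with hS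
  have hmo : ∀ i, f (α g (t i)) = mo S (s i) := by
    intro i
    rw [hρ, ht, hS, mo_mul]
    simp only [f.apply_symm_apply]
  have d01 := hsep _ _ h1
  have d12 := hsep _ _ h2
  have d02 := hsep _ _ h3
  rw [hmo, hmo] at d01 d12 d02
  have bound : ∀ i j, i ≠ j → δ ≤ dist (mo S (s i)) (mo S (s j)) →
      cf S (s i) * cf S (s j) ≤ 3 / δ ^ 2 ∧ 3 / 4 ≤ cf S (s i) * cf S (s j) := by
    intro i j hij hd
    have r1 := rel S (s i) (s j)
    rw [hs i j hij] at r1
    have p := mul_pos (cf_pos S (s i)) (cf_pos S (s j))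
    have d2 := dist_le_two (mo S (s i)) (mo S (s j))
    have d0 : 0 ≤ dist (mo S (s i)) (mo S (s j)) := dist_nonneg
    constructor
    · rw [le_div_iff₀ (by positivity)]
      have : δ ^ 2 ≤ dist (mo S (s i)) (mo S (s j)) ^ 2 := by nlinarith
      have := mul_le_mul_of_nonneg_left this p.le
      linarith
    · have : dist (mo S (s i)) (mo S (s j)) ^ 2 ≤ 4 := by nlinarith
      have := mul_le_mul_of_nonneg_left this p.le
      linarith
  obtain ⟨b01, l01⟩ := bound 0 1 (by decide) d01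
  obtain ⟨b12, l12⟩ := bound 1 2 (by decide) d12
  obtain ⟨b02, l02⟩ := bound 0 2 (by decide) d02
  have p0 := cf_pos S (s 0)
  have p1 := cf_pos S (s 1)
  have p2 := cf_pos S (s 2)
  have hB : (0 : ℝ) < 3 / δ ^ 2 := by positivity
  have each : ∀ x y z : ℝ, 0 < x → 0 < y → 0 < z → x * y ≤ 3 / δ ^ 2 → x * z ≤ 3 / δ ^ 2 →
      3 / 4 ≤ y * z → x ≤ R := by
    intro x y z hx hy hz hxy hxz hyz
    have e1 : (x * y) * (x * z) ≤ (3 / δ ^ 2) * (3 / δ ^ 2) :=
      mul_le_mul hxy hxz (by positivity) hB.le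
    have e2 : x ^ 2 * (3 / 4) ≤ x ^ 2 * (y * z) := mul_le_mul_of_nonneg_left hyz (by positivity)
    have e3 : (3 / δ ^ 2) * (3 / δ ^ 2) = 9 / 16 * R ^ 2 := by
      rw [hR]; field_simp; norm_num
    have e4 : x ^ 2 ≤ R ^ 2 := by nlinarith
    exact le_of_sq_le_sq e4 hR0.le
  have c0 : cf S (s 0) ≤ R := each _ _ _ p0 p1 p2 b01 b02 l12
  have c1 : cf S (s 1) ≤ R := each _ _ _ p1 p0 p2 (by rwa [mul_comm]) b12 l02
  have c2 : cf S (s 2) ≤ R := each _ _ _ p2 p0 p1 (by rwa [mul_comm]) (by rwa [mul_comm]) l01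
  have hSe : ((ρ g : IG E) : (ℝ × E) ≃L[ℝ] (ℝ × E)) v = (S : (ℝ × E) ≃L[ℝ] (ℝ × E)) (1, 0) := by
    rw [← hT]; rfl
  rw [hSe]
  refine ⟨⟨?_, (isoOf S).2⟩, ?_⟩
  · rw [(isoOf S).1]
    simp [qf]
  · have e1 : ((1 : ℝ), (0 : E)) = (1 / 3 : ℝ) • (((1 : ℝ), (s 0 : E)) + ((1 : ℝ), (s 1 : E)) +
        ((1 : ℝ), (s 2 : E))) := by
      apply Prod.ext
      · simp
        norm_num
      · simp only [Prod.smul_snd, Prod.snd_add]
        rw [hs0, smul_zero]
    have e2 : ((S : (ℝ × E) ≃L[ℝ] (ℝ × E)) (1, 0)).1 =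
        1 / 3 * (cf S (s 0) + cf S (s 1) + cf S (s 2)) := by
      rw [e1, map_smul, map_add, map_add]
      rfl
    rw [e2]
    linarith

end Pool.Agent.TH311.LM
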